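import Pool.Agent.H771.B.Third

/-!
# The flush step from a small uncovered area
-/

namespace Pool.Agent.H771.B

open Complex MeasureTheory
open scoped ENNReal

variable {ι : Type*}

/-- the uncovered part of the disc of radius `7` -/
def PD.Hole (P : PD ι) : Set ℂ := {y | ‖y‖ ≤ 7 ∧ ∀ j, ∃ k ∈ P.C j, 0 < P.F j k y}

/-- the frame map as a measurable equivalence -/
noncomputable def frE (d : ℂ) (hd : ‖d‖ = 1) (h : ℝ) : ℝ × ℝ ≃ᵐ ℂ :=
  Complex.measurableEquivRealProd.symm.trans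
    ((rotation ⟨d, mem_sphere_zero_iff_norm.2 hd⟩).toHomeomorph.toMeasurableEquiv.trans
      (MeasurableEquiv.addLeft ((h : ℂ) * (I * d))))

theorem frE_apply (d : ℂ) (hd : ‖d‖ = 1) (h : ℝ) (p : ℝ × ℝ) :
    frE d hd h p = pt d h p.1 p.2 := by
  have e1 : (rotation ⟨d, mem_sphere_zero_iff_norm.2 hd⟩)
      (Complex.measurableEquivRealProd.symm p) =
      d * (Complex.measurableEquivRealProd.symm p) := rotation_apply _ _
  have e2 : Complex.measurableEquivRealProd.symm p = (p.1 : ℂ) + (p.2 : ℂ) * I := by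
    apply Complex.ext <;> simp
  change (h : ℂ) * (I * d) + (rotation ⟨d, mem_sphere_zero_iff_norm.2 hd⟩)
      (Complex.measurableEquivRealProd.symm p) = _
  rw [e1, e2]
  unfold pt
  push_cast
  ring

theorem frE_mp (d : ℂ) (hd : ‖d‖ = 1) (h : ℝ) :
    MeasurePreserving (frE d hd h) volume volume := by
  have h1 := Complex.volume_preserving_equiv_real_prod.symm
  have h2 : MeasurePreserving (rotation ⟨d, mem_sphere_zero_iff_norm.2 hd⟩) volume volume :=
    (rotation ⟨d, mem_sphere_zero_iff_norm.2 hd⟩).measurePreserving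
  have h3 : MeasurePreserving (fun x : ℂ => (h : ℂ) * (I * d) + x) volume volume :=
    measurePreserving_add_left volume _
  exact h3.comp (h2.comp h1)

theorem vol_pt {d : ℂ} (hd : ‖d‖ = 1) (h : ℝ) (S : Set (ℝ × ℝ)) (U : Set ℂ)
    (hS : ∀ p ∈ S, pt d h p.1 p.2 ∈ U) : volume S ≤ volume U := by
  rw [← (frE_mp d hd h).measure_preimage_equiv U]
  refine measure_mono fun p hp => ?_
  rw [Set.mem_preimage, frE_apply]
  exact hS p hp

section

variable {P : PD ι} {R : ℝ} {j : ι} {k : Fin 4} {d : ℂ} {ν h s0 : ℝ} {j' : ι} {k' : Fin 4}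
  {σy t0 : ℝ}

/-- there is a covered point just above the line -/
theorem exists_sec (S : Seg P R j k d ν h s0) (hA : volume P.Hole < ENNReal.ofReal (32 / 10000)) :
    ∃ j' k' σy t0, Sec2 P d h s0 j j' k' σy t0 := by
  have hR6 := S.R6
  have hνlo := S.νlo
  obtain ⟨p, ⟨hp1, hp2⟩, hp⟩ : ∃ p ∈ Set.Ioo (s0 + 21 / 100) (s0 + 65 / 100) ×ˢ
      Set.Ioo (0 : ℝ) (73 / 10000), pt d h p.1 p.2 ∉ P.Hole := by
    by_contra hcon
    push Not at hcon
    have h1 := vol_pt S.dn h _ _ hcon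
    rw [Measure.volume_eq_prod, Measure.prod_prod, Real.volume_Ioo, Real.volume_Ioo,
      ← ENNReal.ofReal_mul (by linarith)] at h1
    have h2 := lt_of_le_of_lt h1 hA
    rw [ENNReal.ofReal_lt_ofReal_iff (by norm_num)] at h2
    linarith
  obtain ⟨h3, h4⟩ := S.nrm' (σ := p.1) (t := p.2) (by linarith [hp1.1]) (by linarith [hp1.2])
    hp2.1.le
  have hp22 := hp2.2
  have hcov : ∃ j', ∀ κ ∈ P.C j', P.F j' κ (pt d h p.1 p.2) ≤ 0 := by
    by_contra hc
    push Not at hc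
    exact hp ⟨by linarith, hc⟩
  obtain ⟨j', hj'⟩ := hcov
  have hne : j ≠ j' := by
    intro e
    have h5 := hj' k (e ▸ S.mem)
    rw [← e, S.hF] at h5
    have : 0 < ν * p.2 := mul_pos (by linarith) hp2.1
    linarith
  have g1 : s0 ≤ p.1 := by linarith [hp1.1]
  have g2 : p.1 ≤ s0 + 43 / 50 := by linarith [hp1.2]
  obtain ⟨h5, h6⟩ := S.nrm p.1 g1 g2
  obtain ⟨k', hk', hk'2⟩ := P.bdry hne S.mem (z := pt d h p.1 0) (by linarith)
    (by rw [S.hF]; ring) (S.clr p.1 g1 g2)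
  exact ⟨j', k', p.1, p.2, ⟨⟨_, by linarith, hj'⟩, hne, hk', hp1.1, hp1.2, hp2.1, hp2.2, hj', hk'2⟩⟩

/-- the fine bound for the slope -/
theorem Sec2.slope2 (S : Seg P R j k d ν h s0) (hgap : Gap P R)
    (T : Sec2 P d h s0 j j' k' σy t0) (hA : volume P.Hole < ENNReal.ofReal (32 / 10000)) :
    |ip (P.n j' k') d| ≤ 957 / 100000 := by
  by_contra hcon
  push Not at hcon
  have hR6 := S.R6
  set p := ip (P.n j' k') d with hp
  set g : ℝ → ℝ := fun σ => P.F j' k' (pt d h σ 0) with hg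
  have haff : ∀ σ, g σ = g s0 + (σ - s0) * p := by
    intro σ
    simp only [hg]
    rw [T.aff σ 0 s0 0]
    ring
  have hg1 := T.no_cross S hgap (σ := s0) le_rfl (by linarith)
  have hg2 := T.no_cross S hgap (σ := s0 + 43 / 50) (by linarith) le_rfl
  have hg2' : 0 ≤ g s0 + 43 / 50 * p := by
    have := haff (s0 + 43 / 50)
    have e : s0 + 43 / 50 - s0 = 43 / 50 := by ring
    rw [e] at this
    rw [← this]
    exact hg2
  have hg1' : 0 ≤ g s0 := hg1
  set a1 := s0 + 65 / 2000 with ha1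
  set a2 := s0 + 43 / 50 - 65 / 2000 with ha2
  have ha12 : a1 ≤ a2 := by rw [ha1, ha2]; linarith
  have hgc : Continuous g := by
    have : g = fun σ => g s0 + (σ - s0) * p := funext haff
    rw [this]
    fun_prop
  have hgpos : ∀ σ, a1 ≤ σ → σ ≤ a2 → 0 ≤ g σ := by
    intro σ h1 h2
    exact T.no_cross S hgap (by linarith) (by linarith)
  have hvol : volume (regionBetween (fun _ : ℝ => (0 : ℝ)) g (Set.Ioo a1 a2)) ≤
      volume P.Hole := by
    refine vol_pt S.dn h _ _ ?_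
    rintro ⟨σ, t⟩ ⟨⟨h1, h2⟩, h3, h4⟩
    simp only at h1 h2 h3 h4
    have g1 : s0 ≤ σ := by linarith
    have g2 : σ ≤ s0 + 43 / 50 := by linarith
    obtain ⟨h5, h6⟩ := S.nrm' g1 g2 h3.le
    have h7 := T.g_max S hgap g1 g2
    refine ⟨?_, fun m => third S hgap T h1.le h2.le h3 h4 m⟩
    have : t < 2995 / 100000 := lt_of_lt_of_le h4 h7
    linarith
  have hint : IntegrableOn g (Set.Ioo a1 a2) :=
    (hgc.integrableOn_Icc).mono_set Set.Ioo_subset_Icc_self
  rw [Measure.volume_eq_prod, volume_regionBetween_eq_integral (integrableOn_zero) hint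
    measurableSet_Ioo (fun σ hσ => hgpos σ hσ.1.le hσ.2.le)] at hvol
  have hI : ∫ y in Set.Ioo a1 a2, (g - (fun _ : ℝ => (0 : ℝ))) y = 795 / 1000 * (g s0 + 43 / 100 * p) := by
    rw [← integral_Ioc_eq_integral_Ioo, ← intervalIntegral.integral_of_le ha12]
    have e : ∀ y, (g - (fun _ : ℝ => (0 : ℝ))) y = g s0 + (y - s0) * p := by
      intro y
      rw [Pi.sub_apply, sub_zero, haff]
    simp_rw [e]
    have hd : ∀ y ∈ Set.uIcc a1 a2, HasDerivAt
        (fun y : ℝ => g s0 * y + (y - s0) ^ 2 / 2 * p) (g s0 + (y - s0) * p) y := by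
      intro y _
      have h1 : HasDerivAt (fun y : ℝ => g s0 * y) (g s0) y := by
        simpa using (hasDerivAt_id y).const_mul (g s0)
      have h2 : HasDerivAt (fun y : ℝ => (y - s0) ^ 2 / 2 * p) ((y - s0) * p) y := by
        have h3 := ((((hasDerivAt_id y).sub_const s0).pow 2).div_const 2).mul_const p
        refine h3.congr_deriv ?_
        simp
      exact h1.add h2
    rw [intervalIntegral.integral_eq_sub_of_hasDerivAt hd
      ((by fun_prop : Continuous fun y : ℝ => g s0 + (y - s0) * p).intervalIntegrable _ _)]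
    rw [ha1, ha2]
    ring
  rw [hI] at hvol
  have h1 := lt_of_le_of_lt hvol hA
  rw [ENNReal.ofReal_lt_ofReal_iff (by norm_num)] at h1
  rcases lt_abs.1 hcon with h2 | h2
  · linarith
  · linarith

end

/-- the facts about the member on the other side of a line -/
structure FlushTo (P : PD ι) (R : ℝ) (j : ι) (k : Fin 4) (d : ℂ) (b : ℝ) (j' : ι) (k' : Fin 4)
    (d' : ℂ) (ν' : ℝ) (y0 : ℂ) : Prop where
  inJ : P.InJ j'
  ne : j ≠ j'
  mem : k' ∈ P.C j'
  dn : ‖d'‖ = 1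
  νlo : 9974 / 10000 ≤ ν'
  νhi : ν' ≤ 1
  hn : P.n j' k' = -((ν' : ℂ) * (I * d'))
  dd : ‖d' - d‖ ≤ 96 / 10000
  ylo : R + 9 / 100 ≤ ‖y0‖
  yhi : ‖y0‖ ≤ R + 97 / 100
  yd : 0 < ip y0 d'
  F0 : -(73 / 10000) ≤ P.F j' k' y0
  cov : ∀ κ ∈ P.C j', P.F j' κ y0 ≤ 0
  off : |P.β j' k'| ≤ (b + 3 / 40) * ν'
  sum : ∃ y, ‖y‖ ≤ R + 24 / 25 ∧ P.F j k y = 0 ∧ P.F j' k' y ≤ 73 / 10000
  clr : ∃ y1, ‖y1‖ ≤ R + 1 ∧ P.F j' k' y1 = 0 ∧ ∀ κ ∈ P.C j', κ ≠ k' → P.F j' κ y1 < 0

theorem sub_unit_le {c s : ℝ} (h : c ^ 2 + s ^ 2 = 1) (hc : 0 < c) (hs : |s| ≤ 9596 / 1000000) :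
    (1 - c) ^ 2 + s ^ 2 ≤ (96 / 10000) ^ 2 := by
  have h2 : s ^ 2 ≤ (9596 / 1000000) ^ 2 := by
    rw [← sq_abs s]
    exact pow_le_pow_left₀ (abs_nonneg s) hs 2
  have h3 : 1 - s ^ 2 ≤ c := by nlinarith
  have h4 : c ≤ 1 := by nlinarith
  nlinarith

theorem off_le {ν F x b D : ℝ} (hν : 9974 / 10000 ≤ ν) (hF0 : 0 ≤ F) (hF1 : F ≤ 73 / 10000)
    (hx : |x| ≤ b + D) (hD : D ≤ 66816 / 1000000) : |F + ν * x| ≤ (b + 3 / 40) * ν := by
  refine (abs_add_le _ _).trans ?_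
  have hν0 : 0 ≤ ν := by linarith
  rw [abs_mul, abs_of_nonneg hν0, abs_of_nonneg hF0]
  have h2 := mul_le_mul_of_nonneg_left hx hν0
  nlinarith

theorem flush (P : PD ι) (hA : volume P.Hole < ENNReal.ofReal (32 / 10000)) {R : ℝ}
    (hR0 : 0 ≤ R) (hR6 : R ≤ 6) (hgap : Gap P R) {j : ι} {k : Fin 4} {d : ℂ} {ν b : ℝ}
    (L : LineSt P R j k d ν b) (hb : b ≤ R + 2 / 25) :
    ∃ j' k' d' ν' y0, FlushTo P R j k d b j' k' d' ν' y0 := by
  obtain ⟨h, s0, S, hhb, hs⟩ := mk_seg hR0 hR6 L hb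
  obtain ⟨j', k', σy, t0, T⟩ := exists_sec S hA
  have hσlo := T.σlo
  have hσhi := T.σhi
  have ht0 := T.t0pos
  have ht1 := T.t0hi
  have hslope := T.slope2 S hgap hA
  have hq := T.q_le S hgap
  have hν'lo := P.norm_of_beta T.mem (T.beta S)
  have hν'1 := P.n1 j' k' T.mem
  have hdd := ip_self_unit d S.dn
  have hdI := ip_I_self d
  set n' := P.n j' k' with hn'
  set ν' := ‖n'‖ with hν'
  have hν'0 : 0 < ν' := by linarith
  have hν'c : (ν' : ℂ) ≠ 0 := by exact_mod_cast hν'0.ne'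
  set p := ip n' d with hp
  set q := ip n' (I * d) with hqdef
  set d' : ℂ := ((ν'⁻¹ : ℝ) : ℂ) * (I * n') with hd'
  have hd'n : ‖d'‖ = 1 := by
    rw [hd', norm_mul, Complex.norm_real, norm_mul, Complex.norm_I, norm_inv, Real.norm_eq_abs,
      abs_of_pos hν'0, one_mul, ← hν', inv_mul_cancel₀ hν'0.ne']
  have hnd' : n' = -((ν' : ℂ) * (I * d')) := by
    rw [hd']
    push_cast
    have hI : I * (((ν' : ℂ))⁻¹ * (I * n')) = -((ν' : ℂ)⁻¹ * n') := by
      linear_combination ((ν' : ℂ)⁻¹ * n') * Complex.I_mul_I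
    rw [hI]
    field_simp
  have hd'd : ip d' d = -q / ν' := by
    rw [hd', ip_smul_left, ip_I_left, hqdef]
    field_simp
  have hd'e : ip d' (I * d) = p / ν' := by
    rw [hd', ip_smul_left, ip_I_I, hp]
    field_simp
  have hnpq : ν' ^ 2 = p ^ 2 + q ^ 2 := norm_sq_expand n' d S.dn
  have hcs : (-q / ν') ^ 2 + (p / ν') ^ 2 = 1 := by
    rw [div_pow, div_pow, ← add_div, div_eq_one_iff_eq (by positivity)]
    linarith [hnpq]
  have hdd' : ‖d' - d‖ ≤ 96 / 10000 := by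
    have h1 : ‖d' - d‖ ^ 2 = (1 - -q / ν') ^ 2 + (p / ν') ^ 2 := by
      rw [norm_sq_expand (d' - d) d S.dn, ip_sub_left, ip_sub_left, hd'd, hd'e, hdd, hdI]
      ring
    have h2 : |p / ν'| ≤ 9596 / 1000000 := by
      rw [abs_div, abs_of_pos hν'0, div_le_iff₀ hν'0]
      linarith
    have h3 := sub_unit_le hcs (div_pos (by linarith) hν'0) h2
    rw [← h1] at h3
    exact (pow_le_pow_iff_left₀ (norm_nonneg _) (by norm_num) two_ne_zero).1 h3
  obtain ⟨g1, g2⟩ := S.nrm' (σ := σy) (t := t0) (by linarith) (by linarith) ht0.le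
  obtain ⟨g3, g4⟩ := S.nrm σy (by linarith) (by linarith)
  have hyd : 0 < ip (pt d h σy t0) d' := by
    have e : ip (pt d h σy t0) d' = ip (pt d h σy t0) d + ip (pt d h σy t0) (d' - d) := by
      rw [ip_sub_right]; ring
    rw [e, ip_comm (pt d h σy t0) d, ip_pt, hdd, hdI]
    have h1 := abs_ip_le (pt d h σy t0) (d' - d)
    have h3 := (abs_le.1 h1).1
    have h6 : ‖pt d h σy t0‖ * ‖d' - d‖ ≤ 7 * (96 / 10000) :=
      mul_le_mul (by linarith) hdd' (norm_nonneg _) (by norm_num)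
    have := S.s0pos
    linarith
  -- the point of the second line
  obtain ⟨θ, hθ0, hθ1, hθ⟩ := P.zero_between j' k' (T.cov k' T.mem) T.g0
  rw [pt_comb] at hθ
  have eσ : σy + θ * (σy - σy) = σy := by ring
  rw [eσ] at hθ
  have ht10 : 0 ≤ t0 + θ * (0 - t0) := by nlinarith
  have ht11 : t0 + θ * (0 - t0) ≤ t0 := by nlinarith
  obtain ⟨g5, g6⟩ := S.nrm' (σ := σy) (by linarith) (by linarith) ht10
  refine ⟨j', k', d', ν', pt d h σy t0, ?_⟩
  exact {
    inJ := T.inJ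
    ne := T.ne
    mem := T.mem
    dn := hd'n
    νlo := hν'lo
    νhi := hν'1
    hn := hnd'
    dd := hdd'
    ylo := by linarith
    yhi := by linarith
    yd := hyd
    F0 := T.low S
    cov := T.cov
    off := by
      have hx : |ip (pt d h σy 0) (I * d')| ≤ b + ‖pt d h σy 0‖ * ‖d' - d‖ := by
        have e : ip (pt d h σy 0) (I * d') =
            ip (pt d h σy 0) (I * d) + ip (pt d h σy 0) (I * (d' - d)) := by
          rw [← ip_add_right]; congr 1; ring
        rw [e]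
        refine (abs_add_le _ _).trans ?_
        have h1 := abs_ip_le (pt d h σy 0) (I * (d' - d))
        rw [norm_mul, norm_I, one_mul] at h1
        have h2 : ip (pt d h σy 0) (I * d) = h := by
          rw [ip_comm, ip_pt, ip_Id_Id d S.dn, ip_comm (I * d) d, hdI]; ring
        rw [h2]
        linarith
      have hD : ‖pt d h σy 0‖ * ‖d' - d‖ ≤ 66816 / 1000000 := by
        have : ‖pt d h σy 0‖ * ‖d' - d‖ ≤ 696 / 100 * (96 / 10000) :=
          mul_le_mul (by linarith) hdd' (norm_nonneg _) (by norm_num)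
        linarith
      have h3 := off_le hν'lo T.g0 (T.g_le S) hx hD
      have e : P.β j' k' = P.F j' k' (pt d h σy 0) + ν' * ip (pt d h σy 0) (I * d') := by
        unfold PD.F
        rw [← hn', hnd', ip_neg_left, ip_smul_left, ip_comm (I * d')]
        ring
      rw [e]
      exact h3
    sum := ⟨pt d h σy 0, g4, by rw [S.hF]; ring, T.g_le S⟩
    clr := by
      refine ⟨pt d h σy (t0 + θ * (0 - t0)), by linarith, hθ, fun κ hκ hne => ?_⟩
      exact T.clr S hgap (by linarith) (by linarith) ht10 (by linarith) hθ hκ hne }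

end Pool.Agent.H771.B
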