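import Pool.Agent.H771.B.Next
import Pool.Agent.H771.Cycle

/-!
# The planar theorem, second version: the uncovered area of the disc of radius `7`
-/

namespace Pool.Agent.H771.B

open Complex MeasureTheory
open scoped ENNReal

variable {ι : Type*}

/-- the distinguished member is inner -/
theorem PD.inner_o (P : PD ι) {R : ℝ} (hR0 : 0 ≤ R) : Inner P R P.o := by
  refine ⟨P.oc, 0, by rw [norm_zero]; exact hR0, fun k hk => ?_⟩
  unfold PD.F
  rw [ip_zero_right, P.oβ k hk]; ring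

theorem PD.inJ_o (P : PD ι) : P.InJ P.o := by
  refine ⟨0, by rw [norm_zero]; norm_num, fun k hk => ?_⟩
  unfold PD.F
  rw [ip_zero_right, P.oβ k hk]; norm_num

/-- no interior point of the distinguished member is interior to an outer member -/
theorem PD.o_dis (P : PD ι) {R : ℝ} (hR0 : 0 ≤ R) {j : ι} (hni : ¬ Inner P R j) {y : ℂ}
    (hy : ‖y‖ ≤ 28) (h1 : ∀ k ∈ P.C P.o, P.F P.o k y < 0) : ∃ k ∈ P.C j, 0 ≤ P.F j k y := by
  by_contra hc
  push Not at hc
  have hne : P.o ≠ j := by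
    intro h
    exact hni (h ▸ P.inner_o hR0)
  exact P.dis P.o j hne y (by linarith) h1 hc

theorem oo_c {R h s N : ℝ} (hR0 : 0 ≤ R) (hR6 : R ≤ 6) (h0 : 0 ≤ h) (hh : h ≤ R + 16 / 100)
    (hs : |s| ≤ 364 / 1000 * h) (hN : N ^ 2 = s ^ 2 + h ^ 2) (hN0 : 0 ≤ N) : N ≤ R + 1 := by
  have h1 : s ^ 2 ≤ (364 / 1000 * h) ^ 2 := by
    rw [← sq_abs s]; exact pow_le_pow_left₀ (abs_nonneg s) hs 2
  have h2 : N ^ 2 ≤ (107 / 100 * h) ^ 2 := by nlinarith
  have h3 : N ≤ 107 / 100 * h := (pow_le_pow_iff_left₀ hN0 (by linarith) two_ne_zero).1 h2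
  linarith

theorem oo_s {a s b h x : ℝ} (ha : 937 / 1000 ≤ |a|) (has : a * s = -(x + b * h))
    (hx0 : 0 ≤ x) (hF : x + b * h < 0) (hb : -(34 / 100) ≤ b) (h0 : 0 ≤ h) :
    |s| ≤ 364 / 1000 * h := by
  have h1 : |a| * |s| ≤ 34 / 100 * h := by
    rw [← abs_mul, has, abs_neg, abs_of_neg hF]
    nlinarith
  have := abs_nonneg s
  by_contra hc
  push Not at hc
  nlinarith

theorem outer_O (P : PD ι) {R : ℝ} (hR0 : 0 ≤ R) (hR6 : R ≤ 6) (hgap : Gap P R)
    {j : ι} {k : Fin 4} {e : ℂ} {ν b : ℝ} (H : OuterLine P R j k e ν b)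
    (hb : b ≤ R + 16 / 100) : 0 ≤ P.β j k := by
  by_contra hcon
  push Not at hcon
  have hνlo := H.νlo
  have hν0 : 0 < ν := by linarith
  have he := H.en
  have hee := ip_self_unit e he
  have hII := ip_Id_Id e he
  have heI := ip_I_self e
  have hIe : ip (I * e) e = 0 := by rw [ip_comm]; exact heI
  set h : ℝ := -(P.β j k) / ν with hh
  have hνh : ν * h = -(P.β j k) := by rw [hh]; field_simp
  have h0 : 0 < h := div_pos (by linarith) hν0
  have hhb : h ≤ R + 16 / 100 := by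
    have h1 := H.hβ
    rw [abs_of_neg hcon, ← hνh] at h1
    have h2 : h ≤ b := by
      by_contra hc
      push Not at hc
      nlinarith
    linarith
  have hβk : -7 ≤ P.β j k := by
    have : ν * h ≤ 1 * h := mul_le_mul_of_nonneg_right H.νhi h0.le
    linarith
  -- if all the constraints are negative at the origin we are done
  by_cases hall : ∀ κ ∈ P.C j, P.F j κ 0 < 0
  · obtain ⟨r, hr0, hr1, hr⟩ := small_scalar (P.C j) (fun κ => P.F j κ 0) hall
    obtain ⟨u, hu1, hu2⟩ := P.exists_dir P.o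
    have hyn : ‖((r / 2 : ℝ) : ℂ) * u‖ = r / 2 := by
      rw [norm_mul, norm_real, hu1, Real.norm_eq_abs, abs_of_pos (by linarith)]; ring
    obtain ⟨κ, hκ, hκ2⟩ := P.o_dis hR0 H.ni (y := ((r / 2 : ℝ) : ℂ) * u)
      (by rw [hyn]; linarith) (by
        intro l hl
        have h1 := hu2 l hl
        unfold PD.F
        rw [P.oβ l hl, ip_smul_right]
        nlinarith)
    have h1 := P.F_lip j κ hκ 0 (((r / 2 : ℝ) : ℂ) * u)
    rw [sub_zero, hyn] at h1
    have h2 := hr κ hκ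
    linarith
  · push Not at hall
    obtain ⟨κ, hκ, hκ2⟩ := hall
    have hF0 : ∀ l, P.F j l 0 = P.β j l := by
      intro l; unfold PD.F; rw [ip_zero_right]; ring
    rw [hF0] at hκ2
    have hne : κ ≠ k := by
      intro hc
      rw [hc] at hκ2
      linarith
    obtain ⟨ha, hb1, hb2⟩ := P.wedge H.mem hκ hne hβk (by linarith) he H.hn hν0
    set a := ip (P.n j κ) e with ha'
    set b' := ip (P.n j κ) (I * e) with hb'
    have ha0 : a ≠ 0 := by
      intro h
      rw [h, abs_zero] at ha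
      norm_num at ha
    -- the foot
    set p : ℂ := (h : ℂ) * (I * e) with hp
    have hpn : ‖p‖ = h := by
      rw [hp, norm_mul, norm_mul, norm_I, he, norm_real, Real.norm_eq_abs, abs_of_pos h0]; ring
    have hpk : P.F j k p = 0 := by
      unfold PD.F
      rw [hp, H.hn, ip_smul_left, ip_smul_right, hII]
      linarith
    have hpκ : P.F j κ p = P.β j κ + b' * h := by
      unfold PD.F
      rw [hp, ip_smul_right]
      ring
    have h1 := H.clear κ hκ hne p (by rw [hpn]; linarith) hpk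
    rw [hpκ] at h1
    set s : ℝ := -(P.β j κ + b' * h) / a with hs
    have has : a * s = -(P.β j κ + b' * h) := by rw [hs]; field_simp
    have hs1 := oo_s ha has hκ2 h1 hb1 h0.le
    set c : ℂ := (s : ℂ) * e + (h : ℂ) * (I * e) with hc
    have hcn : ‖c‖ ^ 2 = s ^ 2 + h ^ 2 := by
      rw [norm_sq_expand c e he, hc, ip_add_left, ip_add_left, ip_smul_left, ip_smul_left,
        ip_smul_left, ip_smul_left, hee, heI, hIe, hII]
      ring
    have hcn1 := oo_c hR0 hR6 h0.le hhb hs1 hcn (norm_nonneg _)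
    have hck : P.F j k c = 0 := by
      unfold PD.F
      rw [hc, ip_add_right, ip_smul_right, ip_smul_right, H.hn, ip_smul_left, ip_smul_left,
        hIe, hII]
      linarith
    have hcκ : P.F j κ c = 0 := by
      unfold PD.F
      rw [hc, ip_add_right, ip_smul_right, ip_smul_right, ← ha', ← hb']
      linarith
    have hcard := P.card_two H.mem hκ hne
    have hall := P.all_of_two H.mem hκ hne (p := fun l => P.F j l c = 0) hck hcκ
    rcases le_or_gt ‖c‖ R with h' | h'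
    · exact H.ni ⟨hcard, c, h', hall⟩
    · exact hgap j H.inJ hcard c hall ⟨h', hcn1⟩

/-- the other constraint of an outer line near the origin is very negative near the origin -/
theorem OuterLine.deep {P : PD ι} {R : ℝ} (hR0 : 0 ≤ R) {j : ι} {k : Fin 4} {e : ℂ} {ν b : ℝ}
    (H : OuterLine P R j k e ν b) (hβ0 : 0 ≤ P.β j k) (hβ1 : P.β j k ≤ 93 / 1000)
    {κ : Fin 4} (hκ : κ ∈ P.C j) (hne : κ ≠ k) {y : ℂ} (hy : ‖y‖ ≤ 144 / 1000) :
    P.F j κ y < 0 := by
  by_contra hcon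
  push Not at hcon
  have hνlo := H.νlo
  have hν0 : 0 < ν := by linarith
  have he := H.en
  have hee := ip_self_unit e he
  have hII := ip_Id_Id e he
  have heI := ip_I_self e
  have hIe : ip (I * e) e = 0 := by rw [ip_comm]; exact heI
  have hβκ : -7 ≤ P.β j κ := by
    have := P.beta_ge hκ hy (δ := 0) (by linarith)
    linarith
  obtain ⟨ha, hb1, hb2⟩ := P.wedge H.mem hκ hne (by linarith) hβκ he H.hn hν0
  set a := ip (P.n j κ) e with ha'
  set b' := ip (P.n j κ) (I * e) with hb'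
  set h : ℝ := P.β j k / ν with hh
  have hνh : ν * h = P.β j k := by rw [hh]; field_simp
  have h0 : 0 ≤ h := div_nonneg hβ0 hν0.le
  have hh1 : h ≤ 94 / 1000 := by
    rw [hh, div_le_iff₀ hν0]; linarith
  set p : ℂ := ((-h : ℝ) : ℂ) * (I * e) with hp
  have hpn : ‖p‖ = h := by
    rw [hp, norm_mul, norm_mul, norm_I, he, norm_real, Real.norm_eq_abs, abs_neg,
      abs_of_nonneg h0]; ring
  have hpk : P.F j k p = 0 := by
    unfold PD.F
    rw [hp, H.hn, ip_smul_left, ip_smul_right, hII]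
    linarith
  have key : ∀ σ : ℝ, |σ| ≤ 9 / 10 → P.F j κ p + σ * a < 0 := by
    intro σ hσ
    have e1 : P.F j κ (p + (σ : ℂ) * e) = P.F j κ p + σ * a := by
      rw [P.F_add, ip_smul_right]
    rw [← e1]
    apply H.clear κ hκ hne
    · refine (norm_add_le _ _).trans ?_
      rw [hpn, norm_mul, he, norm_real, Real.norm_eq_abs]
      linarith
    · rw [P.F_add, hpk, ip_smul_right, H.hn, ip_smul_left, hIe]
      ring
  have hp2 : P.F j κ p ≤ -(84 / 100) := by
    rcases le_abs.1 ha with h1 | h1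
    · have := key (9 / 10) (by rw [abs_of_pos (by norm_num)])
      linarith
    · have := key (-(9 / 10)) (by rw [abs_neg, abs_of_pos (by norm_num)])
      linarith
  have h3 := P.F_lip j κ hκ p y
  have h4 := norm_sub_le y p
  rw [hpn] at h4
  linarith

theorem ntwo_sum {R S β1 β2 x Y D : ℝ} (hR6 : R ≤ 6) (hS : S = x + (β1 + β2))
    (hS1 : S ≤ 73 / 10000) (hx : -x ≤ D * Y) (hD : D ≤ 122 / 10000)
    (hY : Y ≤ R + 24 / 25) (hY0 : 0 ≤ Y) : β1 + β2 ≤ 923 / 10000 := by
  have h1 : D * Y ≤ 122 / 10000 * Y := mul_le_mul_of_nonneg_right hD hY0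
  nlinarith

/-- there are no two consecutive outer members -/
theorem no_two_outer (P : PD ι) {R : ℝ} (hR0 : 0 ≤ R) (hR6 : R ≤ 6) (hgap : Gap P R)
    {j j' : ι} {k k' : Fin 4} {e d' y0 : ℂ} {b ν ν' : ℝ} (H : OuterLine P R j k e ν b)
    (hb : b ≤ R + 8 / 100) (H' : FlushTo P R j k e b j' k' d' ν' y0) : Inner P R j' := by
  by_contra hni
  have O' := next_outer P hgap H' hni
  have hβ1 := outer_O P hR0 hR6 hgap H (by linarith)
  have hβ2 := outer_O P hR0 hR6 hgap O' (by linarith)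
  have hνlo := H.νlo
  have hνhi := H.νhi
  have hνlo' := H'.νlo
  have hνhi' := H'.νhi
  -- the sum of the two constraint functions
  have hsum : ‖P.n j k + P.n j' k'‖ ≤ 122 / 10000 := by
    have e1 : P.n j k + P.n j' k' =
        ((ν - ν' : ℝ) : ℂ) * (I * e) + ((-ν' : ℝ) : ℂ) * (I * (d' - e)) := by
      rw [H.hn, H'.hn]; push_cast; ring
    rw [e1]
    refine (norm_add_le _ _).trans ?_
    rw [norm_mul, norm_mul, norm_mul, norm_mul, norm_I, norm_real, norm_real, H.en,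
      Real.norm_eq_abs, Real.norm_eq_abs, abs_neg, abs_of_pos (by linarith : 0 < ν')]
    have h1 : |ν - ν'| ≤ 26 / 10000 := by rw [abs_le]; constructor <;> linarith
    have h2 := H'.dd
    have h3 := norm_nonneg (d' - e)
    nlinarith
  have hFsum : ∀ z, P.F j k z + P.F j' k' z =
      ip (P.n j k + P.n j' k') z + (P.β j k + P.β j' k') := by
    intro z
    unfold PD.F
    rw [ip_add_left]; ring
  obtain ⟨y, hy1, hy2, hy3⟩ := H'.sum
  have hββ : P.β j k + P.β j' k' ≤ 923 / 10000 := by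
    have h1 := abs_ip_le (P.n j k + P.n j' k') y
    refine ntwo_sum (R := R) (S := P.F j k y + P.F j' k' y)
      (x := ip (P.n j k + P.n j' k') y) (Y := ‖y‖) (D := ‖P.n j k + P.n j' k'‖)
      hR6 (hFsum y) ?_ ?_ hsum hy1 (norm_nonneg _)
    · rw [hy2]
      linarith
    · have := (abs_le.1 h1).1
      linarith
  -- the point inside the distinguished member
  obtain ⟨u, hu1, hu2⟩ := P.exists_dir P.o
  set z : ℂ := ((96 / 1000 : ℝ) : ℂ) * u with hz
  have hzn : ‖z‖ = 96 / 1000 := by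
    rw [hz, norm_mul, norm_real, hu1, Real.norm_eq_abs, abs_of_pos (by norm_num)]; ring
  have hzo : ∀ l ∈ P.C P.o, P.F P.o l z ≤ -(486 / 10000) := by
    intro l hl
    have := hu2 l hl
    unfold PD.F
    rw [hz, P.oβ l hl, ip_smul_right]
    linarith
  have hzs : P.F j k z + P.F j' k' z ≤ 935 / 10000 := by
    rw [hFsum]
    have h1 := ip_le (P.n j k + P.n j' k') z
    rw [hzn] at h1
    nlinarith
  -- general contradiction
  have main : ∀ (i : ι) (l : Fin 4) (f : ℂ) (νi bi : ℝ), OuterLine P R i l f νi bi →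
      0 ≤ P.β i l → P.β i l ≤ 93 / 1000 → P.F i l z ≤ 4675 / 100000 → False := by
    intro i l f νi bi Hi h0 h1 h2
    have hνi := Hi.νlo
    have hII := ip_Id_Id f Hi.en
    set v : ℂ := ((-(47 / 1000) : ℝ) : ℂ) * (I * f) with hv
    have hvn : ‖v‖ = 47 / 1000 := by
      rw [hv, norm_mul, norm_mul, norm_I, Hi.en, norm_real, Real.norm_eq_abs, abs_neg,
        abs_of_pos (by norm_num)]; ring
    have hzv : ‖z + v‖ ≤ 144 / 1000 := by
      refine (norm_add_le _ _).trans ?_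
      rw [hzn, hvn]; norm_num
    obtain ⟨κ, hκ, hκ2⟩ := P.o_dis hR0 Hi.ni (y := z + v) (by linarith) (by
      intro m hm
      have h3 := P.F_lip P.o m hm z (z + v)
      rw [add_sub_cancel_left, hvn] at h3
      have := hzo m hm
      linarith)
    by_cases hκl : κ = l
    · rw [hκl, P.F_add, Hi.hn, hv, ip_smul_left, ip_smul_right, hII] at hκ2
      linarith
    · have := Hi.deep hR0 h0 h1 hκ hκl hzv
      linarith
  rcases le_total (P.F j k z) (4675 / 100000) with h | h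
  · exact main j k e ν b H hβ1 (by linarith) h
  · exact main j' k' (-d') ν' (b + 3 / 40) O' hβ2 (by linarith) (by linarith)

/-- two constraints have independent normals -/
theorem PD.cross_ne (P : PD ι) {j : ι} {k κ : Fin 4} (hk : k ∈ P.C j) (hκ : κ ∈ P.C j)
    (hne : κ ≠ k) : ip (P.n j κ) (I * P.n j k) ≠ 0 := by
  intro h0
  have h1 := P.norm_n j k hk
  have h2 := P.norm_n j κ hκ
  have h3 := P.nn j k hk κ hκ (fun e => hne e.symm)
  have h6 : ((7 - P.β j k) / 195) * ((7 - P.β j κ) / 195) ≤ 33518 / 1000000 := by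
    have a1 := P.βlo j k hk
    have a2 := P.βhi j k hk
    have a3 := P.βlo j κ hκ
    have a4 := P.βhi j κ hκ
    have b1 : (7 - P.β j k) / 195 ≤ 357 / 1950 := by linarith
    have b2 : (7 - P.β j κ) / 195 ≤ 357 / 1950 := by linarith
    have b3 : 0 ≤ (7 - P.β j k) / 195 := by linarith
    have b4 : 0 ≤ (7 - P.β j κ) / 195 := by linarith
    nlinarith
  have h7 := abs_le.1 (h3.trans h6)
  have h8 : ip (P.n j κ) (I * P.n j k) ^ 2 + ip (P.n j k) (P.n j κ) ^ 2 =
      ‖P.n j k‖ ^ 2 * ‖P.n j κ‖ ^ 2 := by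
    rw [norm_sq_ip, norm_sq_ip]
    simp only [ip, mul_re, mul_im, I_re, I_im]; ring
  rw [h0] at h8
  have h9 : ip (P.n j k) (P.n j κ) ^ 2 ≤ (367 / 1000) ^ 2 := by
    apply sq_le_sq.2
    rw [abs_of_pos (by norm_num : (0 : ℝ) < 367 / 1000), abs_le]
    constructor <;> linarith
  nlinarith

theorem PD.exists_exit (P : PD ι) {j : ι} (h2 : (P.C j).card = 2) : ∃ d, Exit P j d := by
  obtain ⟨k, κ, hkκ, hC⟩ := Finset.card_eq_two.1 h2
  have hk : k ∈ P.C j := by rw [hC]; simp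
  have hκ : κ ∈ P.C j := by rw [hC]; simp
  have hcr := P.cross_ne hk hκ hkκ.symm
  have gen : ∀ k κ : Fin 4, k ∈ P.C j → (∀ l ∈ P.C j, l ≠ k → l = κ) →
      0 < ip (P.n j κ) (I * P.n j k) → ∃ d, Exit P j d := by
    intro k κ hk hall hc
    obtain ⟨e, he, hn, hN⟩ := P.exists_frame hk
    refine ⟨e, he, k, hk, hn, ?_⟩
    intro l hl hlk
    rw [hall l hl hlk]
    have e1 : ip (P.n j κ) (I * P.n j k) = -(‖P.n j k‖ * ip (P.n j κ) e) := by
      nth_rewrite 1 [hn]
      simp only [ip, mul_re, mul_im, I_re, I_im, ofReal_re, ofReal_im]; ring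
    rw [e1] at hc
    by_contra hcon
    push Not at hcon
    have := mul_nonneg hN.le hcon
    linarith
  have hanti : ip (P.n j k) (I * P.n j κ) = -ip (P.n j κ) (I * P.n j k) := by
    simp only [ip, mul_re, mul_im, I_re, I_im]; ring
  rcases lt_or_gt_of_ne hcr with h | h
  · refine gen κ k hκ ?_ (by rw [hanti]; linarith)
    intro l hl hlk
    rw [hC, Finset.mem_insert, Finset.mem_singleton] at hl
    rcases hl with hl | hl
    · exact hl
    · exact absurd hl hlk
  · refine gen k κ hk ?_ h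
    intro l hl hlk
    rw [hC, Finset.mem_insert, Finset.mem_singleton] at hl
    rcases hl with hl | hl
    · exact absurd hl hlk
    · exact hl

theorem PD.exit_unique (P : PD ι) {j : ι} {d d' : ℂ} (h : Exit P j d) (h' : Exit P j d') :
    d = d' := by
  obtain ⟨hd, k, hk, hn, hneg⟩ := h
  obtain ⟨hd', k', hk', hn', hneg'⟩ := h'
  have hpos : ∀ l ∈ P.C j, 0 < ‖P.n j l‖ := by
    intro l hl
    obtain ⟨_, _, _, hN⟩ := P.exists_frame hl
    exact hN
  by_cases hkk : k = k'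
  · rw [← hkk, hn] at hn'
    have hNc : ((‖P.n j k‖ : ℝ) : ℂ) ≠ 0 := by exact_mod_cast (hpos k hk).ne'
    have hN2 : ‖((‖P.n j k‖ : ℝ) : ℂ) * (I * d)‖ = ‖P.n j k‖ := by
      rw [norm_mul, norm_mul, norm_I, hd, norm_real, norm_norm]; ring
    rw [hN2] at hn'
    have h1 := mul_left_cancel₀ hNc hn'
    exact mul_left_cancel₀ I_ne_zero h1
  · exfalso
    have h1 := hneg k' hk' (fun e => hkk e.symm)
    have h2 := hneg' k hk hkk
    rw [hn', ip_smul_left] at h1
    rw [hn, ip_smul_left] at h2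
    have h3 := hpos k hk
    have h4 := hpos k' hk'
    have h5 : ip (I * d') d < 0 := by
      by_contra hc
      push Not at hc
      have := mul_nonneg h4.le hc
      linarith
    have h6 : ip (I * d) d' < 0 := by
      by_contra hc
      push Not at hc
      have := mul_nonneg h3.le hc
      linarith
    have h7 : ip (I * d) d' = -ip (I * d') d := by
      simp only [ip, mul_re, mul_im, I_re, I_im]; ring
    linarith

theorem PD.apex_unique (P : PD ι) {j : ι} (h2 : (P.C j).card = 2) {c c' : ℂ}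
    (h : ∀ k ∈ P.C j, P.F j k c = 0) (h' : ∀ k ∈ P.C j, P.F j k c' = 0) : c = c' := by
  obtain ⟨k, κ, hkκ, hC⟩ := Finset.card_eq_two.1 h2
  have hk : k ∈ P.C j := by rw [hC]; simp
  have hκ : κ ∈ P.C j := by rw [hC]; simp
  have hcr := P.cross_ne hk hκ hkκ.symm
  have e1 := h k hk
  have e2 := h κ hκ
  have e3 := h' k hk
  have e4 := h' κ hκ
  unfold PD.F at e1 e2 e3 e4
  simp only [ip, mul_re, mul_im, I_re, I_im] at e1 e2 e3 e4 hcr
  have hre : ((P.n j κ).re * (0 * (P.n j k).re - 1 * (P.n j k).im) +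
      (P.n j κ).im * (0 * (P.n j k).im + 1 * (P.n j k).re)) * (c.re - c'.re) = 0 := by
    linear_combination (P.n j κ).im * (e1 - e3) - (P.n j k).im * (e2 - e4)
  have him : ((P.n j κ).re * (0 * (P.n j k).re - 1 * (P.n j k).im) +
      (P.n j κ).im * (0 * (P.n j k).im + 1 * (P.n j k).re)) * (c.im - c'.im) = 0 := by
    linear_combination -(P.n j κ).re * (e1 - e3) + (P.n j k).re * (e2 - e4)
  have h1 := (mul_eq_zero.1 hre).resolve_left hcr
  have h2 := (mul_eq_zero.1 him).resolve_left hcr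
  exact Complex.ext (by linarith) (by linarith)

/-- some annulus has no apex -/
theorem PD.exists_gap (P : PD ι) : ∃ R : ℝ, 0 ≤ R ∧ R ≤ 6 ∧ Gap P R := by
  by_contra hcon
  push Not at hcon
  have hR : ∀ i : Fin 7, ∃ j, P.InJ j ∧ (P.C j).card = 2 ∧ ∃ c : ℂ,
      (∀ k ∈ P.C j, P.F j k c = 0) ∧ (((i : ℕ) : ℝ) < ‖c‖ ∧ ‖c‖ ≤ ((i : ℕ) : ℝ) + 1) := by
    intro i
    have hi : ((i : ℕ) : ℝ) ≤ 6 := by exact_mod_cast (by omega : (i : ℕ) ≤ 6)
    have := hcon ((i : ℕ) : ℝ) (Nat.cast_nonneg _) hi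
    unfold Gap at this
    push Not at this
    obtain ⟨j, h1, h2, c, h3, h4⟩ := this
    exact ⟨j, h1, h2, c, h3, h4⟩
  choose g hg1 hg2 c hc1 hc2 using hR
  refine P.count (Fin.cons P.o g) ?_ ?_
  · intro i
    refine Fin.cases ?_ (fun i => ?_) i
    · simpa using P.inJ_o
    · simpa using hg1 i
  · rw [Fin.cons_injective_iff]
    constructor
    · rintro ⟨i, hi⟩
      have h0 : ∀ k ∈ P.C (g i), P.F (g i) k 0 = 0 := by
        intro k hk
        rw [hi] at hk ⊢
        unfold PD.F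
        rw [ip_zero_right, P.oβ k hk]; ring
      have h1 := P.apex_unique (hg2 i) (hc1 i) h0
      have h2 := (hc2 i).1
      rw [h1, norm_zero] at h2
      have : (0 : ℝ) ≤ ((i : ℕ) : ℝ) := Nat.cast_nonneg _
      linarith
    · intro a b hab
      have h1 : ∀ k ∈ P.C (g a), P.F (g a) k (c b) = 0 := by
        have := hc1 b
        rwa [← hab] at this
      have h2 := P.apex_unique (hg2 a) (hc1 a) h1
      have h3 := hc2 a
      have h4 := hc2 b
      rw [h2] at h3
      have h5 : ((a : ℕ) : ℝ) < ((b : ℕ) : ℝ) + 1 := lt_of_lt_of_le h3.1 h4.2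
      have h6 : ((b : ℕ) : ℝ) < ((a : ℕ) : ℝ) + 1 := lt_of_lt_of_le h4.1 h3.2
      have h7 : (a : ℕ) < (b : ℕ) + 1 := by exact_mod_cast h5
      have h8 : (b : ℕ) < (a : ℕ) + 1 := by exact_mod_cast h6
      exact Fin.ext (by omega)

/-- an outer line as a line of the flush step -/
theorem OuterLine.toLine {P : PD ι} {R : ℝ} {j : ι} {k : Fin 4} {e : ℂ} {ν b : ℝ}
    (H : OuterLine P R j k e ν b) : LineSt P R j k e ν b :=
  ⟨H.inJ, H.mem, H.en, H.νlo, H.νhi, H.hn, H.hβ,
    fun z h1 _ _ h4 κ hκ hne => H.clear κ hκ hne z h4 h1⟩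

/-- one step between inner members -/
theorem inner_step (P : PD ι) (hA : volume P.Hole < ENNReal.ofReal (32 / 10000))
    {R : ℝ} (hR0 : 0 ≤ R) (hR6 : R ≤ 6) (hgap : Gap P R) {j : ι} {d : ℂ} (hJ : P.InJ j)
    (hin : Inner P R j) (hd : Exit P j d) :
    ∃ j' d' s, P.InJ j' ∧ Inner P R j' ∧ Exit P j' d' ∧ (s = (1 : ℝ) ∨ s = -1) ∧
      ‖d' - (s : ℂ) * (ω * d)‖ ≤ 256 / 10000 := by
  obtain ⟨k, ν, L⟩ := inner_line P hR6 hJ hin hd
  obtain ⟨j1, k1, d1, ν1, y1, H1⟩ := flush P hA hR0 hR6 hgap L (by linarith)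
  have hω := ω_norm
  have hdd1 := H1.dd
  by_cases hin1 : Inner P R j1
  · obtain ⟨d'', hE, hcl⟩ := next_inner P hR0 hR6 H1 hin1
    refine ⟨j1, d'', 1, H1.inJ, hin1, hE, Or.inl rfl, ?_⟩
    have e : d'' - ((1 : ℝ) : ℂ) * (ω * d) = (d'' - ω * d1) + ω * (d1 - d) := by
      push_cast; ring
    rw [e]
    refine (norm_add_le _ _).trans ?_
    rw [norm_mul, hω]
    linarith
  · have O1 := next_outer P hgap H1 hin1
    obtain ⟨j2, k2, d2, ν2, y2, H2⟩ := flush P hA hR0 hR6 hgap O1.toLine (by linarith)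
    have hin2 := no_two_outer P hR0 hR6 hgap O1 (by linarith) H2
    obtain ⟨d'', hE, hcl⟩ := next_inner P hR0 hR6 H2 hin2
    have hdd2 := H2.dd
    refine ⟨j2, d'', -1, H2.inJ, hin2, hE, Or.inr rfl, ?_⟩
    have e : d'' - ((-1 : ℝ) : ℂ) * (ω * d) =
        (d'' - ω * d2) + ω * (d2 - -d1) + -(ω * (d1 - d)) := by
      push_cast; ring
    rw [e]
    refine (norm_add_le _ _).trans ?_
    refine (add_le_add_left (norm_add_le _ _) _).trans ?_
    rw [norm_neg, norm_mul, norm_mul, hω]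
    linarith

theorem ω_pow_re (m : ℕ) (h1 : 1 ≤ m) (h7 : m ≤ 7) :
    ((m : ℝ) * (256 / 10000)) ^ 2 < 2 - 2 * |(ω ^ m).re| := by
  have hs : Real.sqrt 2 * Real.sqrt 2 = 2 := Real.mul_self_sqrt (by norm_num)
  obtain ⟨hre, him⟩ := ω_re_im
  have r2 : (ω ^ 2).re = -7 / 9 ∧ (ω ^ 2).im = 4 * Real.sqrt 2 / 9 := by
    rw [pow_two, mul_re, mul_im, hre, him]
    constructor
    · linear_combination (-4 / 9) * hs
    · ring
  have r3 : (ω ^ 3).re = -23 / 27 ∧ (ω ^ 3).im = -10 * Real.sqrt 2 / 27 := by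
    rw [pow_succ, mul_re, mul_im, r2.1, r2.2, hre, him]
    constructor
    · linear_combination (-8 / 27) * hs
    · ring
  have r4 : (ω ^ 4).re = 17 / 81 ∧ (ω ^ 4).im = -56 * Real.sqrt 2 / 81 := by
    rw [pow_succ, mul_re, mul_im, r3.1, r3.2, hre, him]
    constructor
    · linear_combination (20 / 81) * hs
    · ring
  have r5 : (ω ^ 5).re = 241 / 243 ∧ (ω ^ 5).im = -22 * Real.sqrt 2 / 243 := by
    rw [pow_succ, mul_re, mul_im, r4.1, r4.2, hre, him]
    constructor
    · linear_combination (112 / 243) * hs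
    · ring
  have r6 : (ω ^ 6).re = 329 / 729 ∧ (ω ^ 6).im = 460 * Real.sqrt 2 / 729 := by
    rw [pow_succ, mul_re, mul_im, r5.1, r5.2, hre, him]
    constructor
    · linear_combination (44 / 729) * hs
    · ring
  have r7 : (ω ^ 7).re = -1511 / 2187 := by
    rw [pow_succ, mul_re, r6.1, r6.2, hre, him]
    linear_combination (-920 / 2187) * hs
  interval_cases m
  · rw [pow_one, hre, abs_of_pos (by norm_num)]; norm_num
  · rw [r2.1, abs_of_neg (by norm_num)]; norm_num
  · rw [r3.1, abs_of_neg (by norm_num)]; norm_num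
  · rw [r4.1, abs_of_pos (by norm_num)]; norm_num
  · rw [r5.1, abs_of_pos (by norm_num)]; norm_num
  · rw [r6.1, abs_of_pos (by norm_num)]; norm_num
  · rw [r7, abs_of_neg (by norm_num)]; norm_num

theorem ω_far (m : ℕ) (h1 : 1 ≤ m) (h7 : m ≤ 7) (s : ℝ) (hs : s = 1 ∨ s = -1) (d : ℂ)
    (hd : ‖d‖ = 1) : (m : ℝ) * (256 / 10000) < ‖d - (s : ℂ) * (ω ^ m * d)‖ := by
  have e : d - (s : ℂ) * (ω ^ m * d) = (1 - (s : ℂ) * ω ^ m) * d := by ring
  rw [e, norm_mul, hd, mul_one]
  have hn : ‖ω ^ m‖ = 1 := by rw [norm_pow, ω_norm, one_pow]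
  have h2 : ‖1 - (s : ℂ) * ω ^ m‖ ^ 2 = 2 - 2 * s * (ω ^ m).re := by
    have h3 : (ω ^ m).re * (ω ^ m).re + (ω ^ m).im * (ω ^ m).im = 1 := by
      have := norm_sq_ip (ω ^ m)
      rw [hn] at this
      unfold ip at this
      linarith
    have hs2 : s * s = 1 := by rcases hs with h | h <;> rw [h] <;> norm_num
    rw [norm_sq_ip]
    simp only [ip, sub_re, sub_im, one_re, one_im, re_ofReal_mul, im_ofReal_mul]
    linear_combination s ^ 2 * h3 + hs2
  have h4 := ω_pow_re m h1 h7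
  have h5 : s * (ω ^ m).re ≤ |(ω ^ m).re| := by
    rcases hs with h | h <;> rw [h]
    · rw [one_mul]; exact le_abs_self _
    · rw [neg_one_mul]; exact neg_le_abs _
  refine lt_of_pow_lt_pow_left₀ 2 (norm_nonneg _) ?_
  rw [h2]
  linarith

/-- the planar theorem: the uncovered part of the disc of radius `7` has a definite area -/
theorem hole_area (P : PD ι) : ENNReal.ofReal (32 / 10000) ≤ volume P.Hole := by
  by_contra hcon
  push Not at hcon
  obtain ⟨R, hR0, hR6, hgap⟩ := P.exists_gap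
  let St := {q : ι × ℂ // P.InJ q.1 ∧ Inner P R q.1 ∧ Exit P q.1 q.2}
  have step : ∀ q : St, ∃ q' : St, ∃ s : ℝ, (s = 1 ∨ s = -1) ∧
      ‖q'.1.2 - (s : ℂ) * (ω * q.1.2)‖ ≤ 256 / 10000 := by
    rintro ⟨⟨j, d⟩, hJ, hin, hE⟩
    obtain ⟨j', d', s, h1, h2, h3, h4, h5⟩ := inner_step P hcon hR0 hR6 hgap hJ hin hE
    exact ⟨⟨(j', d'), h1, h2, h3⟩, s, h4, h5⟩
  choose nx s hs hnx using step
  obtain ⟨d0, hd0⟩ := P.exists_exit P.oc
  let q0 : St := ⟨(P.o, d0), P.inJ_o, P.inner_o hR0, hd0⟩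
  let q : ℕ → St := fun n => nx^[n] q0
  have hq : ∀ n, q (n + 1) = nx (q n) := fun n => Function.iterate_succ_apply' nx n q0
  have chain : ∀ p m : ℕ, ∃ t : ℝ, (t = 1 ∨ t = -1) ∧
      ‖(q (p + m)).1.2 - (t : ℂ) * (ω ^ m * (q p).1.2)‖ ≤ m * (256 / 10000) := by
    intro p m
    induction m with
    | zero => exact ⟨1, Or.inl rfl, by simp⟩
    | succ m ih =>
      obtain ⟨t, ht, hm⟩ := ih
      refine ⟨s (q (p + m)) * t, ?_, ?_⟩
      · rcases hs (q (p + m)) with h | h <;> rcases ht with h' | h' <;> rw [h, h'] <;> norm_num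
      · have h1 := hnx (q (p + m))
        rw [← hq (p + m)] at h1
        have e : (q (p + (m + 1))).1.2 - ((s (q (p + m)) * t : ℝ) : ℂ) *
            (ω ^ (m + 1) * (q p).1.2) =
            ((q (p + m + 1)).1.2 - ((s (q (p + m)) : ℝ) : ℂ) * (ω * (q (p + m)).1.2)) +
            ((s (q (p + m)) : ℝ) : ℂ) * (ω *
              ((q (p + m)).1.2 - (t : ℂ) * (ω ^ m * (q p).1.2))) := by
          rw [← add_assoc]
          push_cast; ring
        rw [e]
        refine (norm_add_le _ _).trans ?_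
        rw [norm_mul, norm_mul, ω_norm, norm_real, one_mul]
        have h2 : ‖s (q (p + m))‖ = 1 := by
          rcases hs (q (p + m)) with h | h <;> rw [h] <;> simp
        rw [h2]
        push_cast
        linarith
  have hninj := P.count (fun i : Fin 8 => (q i).1.1) (fun i => (q i).2.1)
  obtain ⟨a, c, hac, heq⟩ : ∃ a c : Fin 8, a < c ∧ (q a).1.1 = (q c).1.1 := by
    rw [Function.not_injective_iff] at hninj
    obtain ⟨a, c, h1, h2⟩ := hninj
    rcases lt_or_gt_of_ne h2 with h3 | h3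
    · exact ⟨a, c, h3, h1⟩
    · exact ⟨c, a, h3, h1.symm⟩
  have hdd : (q a).1.2 = (q c).1.2 := by
    have h1 := (q a).2.2.2
    have h2 := (q c).2.2.2
    rw [← heq] at h2
    exact P.exit_unique h1 h2
  have hac' : (a : ℕ) < (c : ℕ) := hac
  have hc8 := c.2
  obtain ⟨t, ht, hm⟩ := chain a ((c : ℕ) - (a : ℕ))
  have e : (a : ℕ) + ((c : ℕ) - (a : ℕ)) = (c : ℕ) := by omega
  rw [e, ← hdd] at hm
  have hfar := ω_far ((c : ℕ) - (a : ℕ)) (by omega) (by omega) t ht (q a).1.2 (q a).2.2.2.1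
  exact absurd hm (not_le.2 hfar)

end Pool.Agent.H771.B
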