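import Pool.Agent.H771.Edge
import Pool.Agent.H771.B.Section

/-!
# The uncovered volume near an edge, second version
-/

namespace Pool.Agent.H771.B

open Complex MeasureTheory
open scoped RealInnerProductSpace ENNReal

theorem μ_lo' : 816 / 1000 ≤ μ := by
  unfold μ
  have h : (612 / 1000 : ℝ) ≤ Real.sqrt (3 / 8) := by
    rw [show (612 / 1000 : ℝ) = Real.sqrt ((612 / 1000) ^ 2) from
      (Real.sqrt_sq (by norm_num)).symm]
    exact Real.sqrt_le_sqrt (by norm_num)
  linarith

/-- the region near the edge common to the faces `a`, `b` -/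
def Z (T : Tet) (w : ℝ) (a b : Fin 4) : Set E3 :=
  {y | |T.f a y| ≤ 7 * w ∧ |T.f b y| ≤ 7 * w ∧ ∀ k, k ≠ a → k ≠ b → T.f k y ≤ -(310 * w)}

theorem isClosed_Z (T : Tet) (w : ℝ) (a b : Fin 4) : IsClosed (Z T w a b) := by
  have h : Z T w a b = {y | |T.f a y| ≤ 7 * w} ∩ ({y | |T.f b y| ≤ 7 * w} ∩
      ⋂ k, {y | k ≠ a → k ≠ b → T.f k y ≤ -(310 * w)}) := by
    ext y; simp [Z]
  rw [h]
  refine (isClosed_le (T.f_cont a).abs continuous_const).inter
    ((isClosed_le (T.f_cont b).abs continuous_const).inter (isClosed_iInter fun k => ?_))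
  by_cases h1 : k ≠ a ∧ k ≠ b
  · have : {y | k ≠ a → k ≠ b → T.f k y ≤ -(310 * w)} = {y | T.f k y ≤ -(310 * w)} := by
      ext y; simp [h1.1, h1.2]
    rw [this]
    exact isClosed_le (T.f_cont k) continuous_const
  · have : {y | k ≠ a → k ≠ b → T.f k y ≤ -(310 * w)} = Set.univ := by
      ext y
      simp only [Set.mem_ofPred_eq, Set.mem_univ, iff_true]
      intro h2 h3
      exact absurd ⟨h2, h3⟩ h1
    rw [this]
    exact isClosed_univ

/-- the parameters at which the member `j` is near the edge -/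
def J {ι : Type*} (F : Fam ι) (o : ι) (a b c d : Fin 4) (w : ℝ) (j : ι) : Set ℝ :=
  {s | ∃ z ∈ (F.T j).S, ‖z - (F.T o).pt a b c d s‖ ≤ 7 * w}

theorem J_ord {ι : Type*} (F : Fam ι) (o : ι) (a b c d : Fin 4) (w : ℝ) (j : ι) :
    (J F o a b c d w j).OrdConnected := by
  apply Convex.ordConnected
  rintro s ⟨x, hx, hxs⟩ t ⟨y, hy, hyt⟩ α β hα hβ hαβ
  refine ⟨α • x + β • y, (F.T j).convex_S hx hy hα hβ hαβ, ?_⟩
  have e : α • x + β • y - (F.T o).pt a b c d (α • s + β • t) =
      α • (x - (F.T o).pt a b c d s) + β • (y - (F.T o).pt a b c d t) := by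
    unfold Tet.pt
    have h1 : (F.T o).m a b = α • (F.T o).m a b + β • (F.T o).m a b := by
      rw [← add_smul, hαβ, one_smul]
    rw [smul_sub, smul_sub, smul_add, smul_add, smul_eq_mul, smul_eq_mul, add_smul, mul_smul,
      mul_smul]
    nth_rewrite 1 [h1]
    abel
  rw [e]
  refine (norm_add_le _ _).trans ?_
  rw [norm_smul, norm_smul, Real.norm_eq_abs, Real.norm_eq_abs, abs_of_nonneg hα,
    abs_of_nonneg hβ]
  have h1 := mul_le_mul_of_nonneg_left hxs hα
  have h2 := mul_le_mul_of_nonneg_left hyt hβ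
  have h3 : α * (7 * w) + β * (7 * w) = 7 * w := by rw [← add_mul, hαβ, one_mul]
  linarith

/-- the uncovered volume near an edge -/
theorem edge_volume {ι : Type*} [Countable ι] (F : Fam ι) (o : ι) {a b c d : Fin 4}
    (h : Dist4 a b c d) {w : ℝ} (hw : 0 < w) (hw1 : w ≤ 1) (N : ℕ)
    (hN : ∀ s : Finset ι, (∀ j ∈ s, j ≠ o ∧ ∃ t, |t| ≤ Real.sqrt 6 ∧ t ∈ J F o a b c d w j) →
      s.card ≤ N) :
    ENNReal.ofReal (2 * Real.sqrt 6 - 2 * (389 * w) - N * (2 * (195 * w))) *
      (ENNReal.ofReal (w ^ 2) * ENNReal.ofReal (32 / 10000)) ≤ volume (F.U ∩ Z (F.T o) w a b) := by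
  classical
  obtain ⟨h1, h2, h3, h4, h5, h6⟩ := id h
  have hμ := μ_lo'
  set T := F.T o with hT
  set J := J F o a b c d w with hJ
  -- the finite set of members near the edge
  obtain ⟨s, hs1, hs2⟩ : ∃ s : Finset ι, s.card ≤ N ∧
      ∀ j, j ∉ s → j ≠ o → ∀ t, |t| ≤ Real.sqrt 6 → t ∉ J j := by
    have hfin : {j | j ≠ o ∧ ∃ t, |t| ≤ Real.sqrt 6 ∧ t ∈ J j}.Finite := by
      by_contra hinf
      obtain ⟨s, hs, hcard⟩ := Set.Infinite.exists_subset_card_eq hinf (N + 1)
      have := hN s (fun j hj => hs hj)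
      omega
    refine ⟨hfin.toFinset, hN _ (fun j hj => by simpa using hj), ?_⟩
    intro j hj hjo t ht htJ
    apply hj
    rw [Set.Finite.mem_toFinset]
    exact ⟨hjo, t, ht, htJ⟩
  set κ : ℝ := 195 * w with hκ
  have hκ0 : 0 < κ := by positivity
  set G := {t : ℝ | |t| ≤ Real.sqrt 6 - 194 * w - κ ∧
    ∀ j, t ∈ J j → t + κ ∈ J j ∧ t - κ ∈ J j} with hG
  have hGm : ENNReal.ofReal (2 * Real.sqrt 6 - 2 * (389 * w) - N * (2 * κ)) ≤ volume G := by
    have hgm := good_measure J (J_ord F o a b c d w) hκ0 (l := Real.sqrt 6 - 194 * w) s (by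
      intro j hj t ht htJ
      by_cases hjo : j = o
      · have hmem : ∀ r, |r| ≤ Real.sqrt 6 → r ∈ J j := by
          intro r hr
          refine ⟨T.pt a b c d r, ?_, ?_⟩
          · rw [hjo]; exact T.pt_mem h hr
          · rw [sub_self, norm_zero]; positivity
        obtain ⟨ht1, ht2⟩ := abs_le.1 ht
        exact ⟨hmem _ (abs_le.2 ⟨by linarith, by linarith⟩),
          hmem _ (abs_le.2 ⟨by linarith, by linarith⟩)⟩
      · exact absurd htJ (hs2 j hj hjo t (by linarith)))
    refine le_trans (ENNReal.ofReal_le_ofReal ?_) hgm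
    have : (s.card : ℝ) ≤ N := by exact_mod_cast hs1
    have := mul_le_mul_of_nonneg_right this (by positivity : 0 ≤ 2 * κ)
    linarith
  obtain ⟨B, hB⟩ := exists_frame (T.z c d) (T.norm_z h6)
  have hX : ∀ t y, X B (T.m a b) (t, y) = T.pt a b c d t + hat B y := by
    intro t y
    unfold X Tet.pt
    rw [hB]
  refine (mul_le_mul_left hGm _).trans ?_
  refine le_volume_slices B (T.m a b) (F.U_meas.inter (isClosed_Z T w a b).measurableSet) G _ ?_
  rintro t ⟨ht, htJ⟩
  have hx : ∀ k, T.f k (T.pt a b c d t) ≤ 0 := T.pt_mem h (by linarith)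
  let L : Loc ι :=
    { T := F.T
      dis := F.dis
      o := o
      x := T.pt a b c d t
      w := w
      w0 := hw
      w1 := hw1
      b := B
      p := a
      q := b
      pq := h1
      fp := T.f_pt_a h t
      fq := T.f_pt_b h t
      fr := by
        intro r hr1 hr2
        have h1 := T.f_pt_far h (κ := 389 * w) (by linarith) hr1 hr2
        have : 816 / 1000 * (389 * w) ≤ μ * (389 * w) :=
          mul_le_mul_of_nonneg_right hμ (by positivity)
        change T.f r (T.pt a b c d t) ≤ _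
        linarith
      good := by
        intro j hj k
        obtain ⟨⟨z1, hz1, hz1'⟩, z2, hz2, hz2'⟩ := htJ j hj
        rw [hB]
        have e1 : T.pt a b c d (t + κ) = T.pt a b c d t + κ • T.z c d := by
          unfold Tet.pt; rw [add_smul]; abel
        have e2 : T.pt a b c d (t - κ) = T.pt a b c d t + (-κ) • T.z c d := by
          unfold Tet.pt; rw [sub_smul, neg_smul]; abel
        have g1 : (F.T j).f k (T.pt a b c d t) + κ * ⟪(F.T j).ν k, T.z c d⟫ ≤ 7 * w := by
          rw [← inner_smul_right, ← (F.T j).f_add, ← e1]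
          have := (F.T j).f_le k (T.pt a b c d (t + κ)) z1
          rw [norm_sub_rev] at this
          have := hz1 k
          linarith
        have g2 : (F.T j).f k (T.pt a b c d t) - κ * ⟪(F.T j).ν k, T.z c d⟫ ≤ 7 * w := by
          have e3 : (F.T j).f k (T.pt a b c d t) - κ * ⟪(F.T j).ν k, T.z c d⟫ =
              (F.T j).f k (T.pt a b c d t) + ⟪(F.T j).ν k, (-κ) • T.z c d⟫ := by
            rw [inner_smul_right]; ring
          rw [e3, ← (F.T j).f_add, ← e2]
          have := (F.T j).f_le k (T.pt a b c d (t - κ)) z2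
          rw [norm_sub_rev] at this
          have := hz2 k
          linarith
        rcases abs_cases ⟪(F.T j).ν k, T.z c d⟫ with h | h
        · rw [h.1]; linarith
        · rw [h.1]; linarith }
  have hPA := hole_area L.toPD
  calc ENNReal.ofReal (w ^ 2) * ENNReal.ofReal (32 / 10000)
      ≤ ENNReal.ofReal (w ^ 2) *
        volume {y : ℂ | ‖y‖ ≤ 7 ∧ ∀ j, ∃ k ∈ L.toPD.C j, 0 < L.toPD.F j k y} := by
        gcongr
        exact hPA
    _ = volume {y : ℂ | ((w⁻¹ : ℝ) : ℂ) * y ∈
        {y : ℂ | ‖y‖ ≤ 7 ∧ ∀ j, ∃ k ∈ L.toPD.C j, 0 < L.toPD.F j k y}} :=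
        (volume_smul_C w hw _).symm
    _ ≤ _ := by
        refine measure_mono fun y hy => ?_
        obtain ⟨hy1, hy2⟩ := hy
        have hyw : ‖y‖ ≤ 7 * w := by
          rw [norm_mul, norm_real, Real.norm_eq_abs, abs_of_pos (inv_pos.2 hw),
            inv_mul_le_iff₀ hw] at hy1
          linarith
        have e : L.x + L.w • hat L.b (((w⁻¹ : ℝ) : ℂ) * y) = T.pt a b c d t + hat B y := by
          change T.pt a b c d t + w • hat B _ = _
          rw [← hat_smul, ← mul_assoc, ← ofReal_mul, mul_inv_cancel₀ hw.ne', ofReal_one, one_mul]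
        change X B (T.m a b) (t, y) ∈ F.U ∩ Z T w a b
        rw [hX]
        refine ⟨fun j => ?_, ?_, ?_, ?_⟩
        · rw [← e]
          exact L.uncovered hy1 hy2 j
        · have := T.f_lip a (T.pt a b c d t + hat B y) (T.pt a b c d t)
          rw [T.f_pt_a h, sub_zero, add_sub_cancel_left, norm_hat] at this
          linarith
        · have := T.f_lip b (T.pt a b c d t + hat B y) (T.pt a b c d t)
          rw [T.f_pt_b h, sub_zero, add_sub_cancel_left, norm_hat] at this
          linarith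
        · intro k hk1 hk2
          have g1 := T.f_pt_far h (κ := 389 * w) (by linarith) hk1 hk2
          have g2 := T.f_le k (T.pt a b c d t + hat B y) (T.pt a b c d t)
          rw [add_sub_cancel_left, norm_hat] at g2
          have : 816 / 1000 * (389 * w) ≤ μ * (389 * w) :=
            mul_le_mul_of_nonneg_right hμ (by positivity)
          linarith

end Pool.Agent.H771.B
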