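import Pool.Agent.H771.Capsule
import Pool.Agent.H771.B.Edge

/-!
# At most sixty-one other members come near an edge, second version
-/

namespace Pool.Agent.H771.B

open MeasureTheory
open scoped RealInnerProductSpace ENNReal

theorem num_cap {w : ℝ} (hw : 0 ≤ w) (hw1 : w ≤ 1 / 5000) :
    2 * Real.sqrt 6 * (Real.pi * (4899 / 1000 + 7 * w) ^ 2) +
      4 / 3 * Real.pi * (4899 / 1000 + 7 * w) ^ 3 < 63 * (8 * Real.sqrt 3) := by
  have h6 : Real.sqrt 6 ≤ 24495 / 10000 := by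
    rw [Real.sqrt_le_left (by norm_num)]
    norm_num
  have h60 : 0 ≤ Real.sqrt 6 := Real.sqrt_nonneg 6
  have h3 : 17320 / 10000 ≤ Real.sqrt 3 := by
    rw [Real.le_sqrt' (by norm_num)]
    norm_num
  have hpi : Real.pi ≤ 31416 / 10000 := by
    have := Real.pi_lt_d4
    linarith
  have hpi0 := Real.pi_pos
  have hr1 : 4899 / 1000 + 7 * w ≤ 49005 / 10000 := by linarith
  have hr0 : 0 ≤ 4899 / 1000 + 7 * w := by linarith
  have h1 : (4899 / 1000 + 7 * w) ^ 2 ≤ (49005 / 10000) ^ 2 := pow_le_pow_left₀ hr0 hr1 2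
  have h2 : (4899 / 1000 + 7 * w) ^ 3 ≤ (49005 / 10000) ^ 3 := pow_le_pow_left₀ hr0 hr1 3
  have g1 : Real.pi * (4899 / 1000 + 7 * w) ^ 2 ≤ 31416 / 10000 * (49005 / 10000) ^ 2 :=
    mul_le_mul hpi h1 (by positivity) (by norm_num)
  have g2 : Real.pi * (4899 / 1000 + 7 * w) ^ 3 ≤ 31416 / 10000 * (49005 / 10000) ^ 3 :=
    mul_le_mul hpi h2 (by positivity) (by norm_num)
  have g3 : Real.sqrt 6 * (Real.pi * (4899 / 1000 + 7 * w) ^ 2) ≤
      24495 / 10000 * (31416 / 10000 * (49005 / 10000) ^ 2) :=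
    mul_le_mul h6 g1 (by positivity) (by norm_num)
  nlinarith

/-- at most sixty-one other members come near an edge -/
theorem count_edge {ι : Type*} (F : Fam ι) (o : ι) {a b c d : Fin 4} (h : Dist4 a b c d)
    {w : ℝ} (hw : 0 ≤ w) (hw1 : w ≤ 1 / 5000) (s : Finset ι)
    (hs : ∀ j ∈ s, j ≠ o ∧ ∃ t, |t| ≤ Real.sqrt 6 ∧ t ∈ J F o a b c d w j) : s.card ≤ 61 := by
  classical
  obtain ⟨h1, h2, h3, h4, h5, h6⟩ := id h
  have ho : o ∉ s := fun hc => (hs o hc).1 rfl
  obtain ⟨B, hB⟩ := exists_frame ((F.T o).z c d) ((F.T o).norm_z h6)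
  have hr0 : 0 ≤ 4899 / 1000 + 7 * w := by linarith
  have hsub : ∀ j ∈ insert o s, (F.T j).S ⊆
      Cap B ((F.T o).m a b) (Real.sqrt 6) (4899 / 1000 + 7 * w) := by
    intro j hj p hp
    have hdiam : ∀ x ∈ (F.T j).S, ‖p - x‖ ≤ 4899 / 1000 := by
      intro x hx
      have := (F.T j).norm_sub_le hp hx
      nlinarith [norm_nonneg (p - x)]
    obtain ⟨t, ht, z, hz, hzt⟩ : ∃ t, |t| ≤ Real.sqrt 6 ∧ t ∈ J F o a b c d w j := by
      rcases Finset.mem_insert.1 hj with hj | hj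
      · refine ⟨0, by rw [abs_zero]; exact Real.sqrt_nonneg 6, (F.T o).pt a b c d 0, ?_, ?_⟩
        · rw [hj]
          exact (F.T o).pt_mem h (by rw [abs_zero]; exact Real.sqrt_nonneg 6)
        · rw [sub_self, norm_zero]; positivity
      · exact (hs j hj).2
    refine near_mem_Cap B _ ht hr0 ?_
    have e : (F.T o).m a b + t • B 0 = (F.T o).pt a b c d t := by
      unfold Tet.pt; rw [hB]
    rw [e]
    have h7 := norm_add_le (p - z) (z - (F.T o).pt a b c d t)
    rw [sub_add_sub_cancel] at h7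
    have := hdiam z hz
    linarith
  have hcard := F.card_le (insert o s) (Cap_meas B _ _ _) hsub
  have hvol := volume_Cap B ((F.T o).m a b) (Real.sqrt_nonneg 6) hr0
  have h8 := hcard.trans hvol
  rw [← ENNReal.ofReal_natCast, ← ENNReal.ofReal_mul (Nat.cast_nonneg _),
    ENNReal.ofReal_le_ofReal_iff (by positivity)] at h8
  have h9 := num_cap hw hw1
  have h10 : ((insert o s).card : ℝ) < 63 := by
    have h3 : 0 < 8 * Real.sqrt 3 := by positivity
    by_contra hc
    push Not at hc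
    have := mul_le_mul_of_nonneg_right hc h3.le
    linarith
  have h11 : (insert o s).card < 63 := by exact_mod_cast h10
  rw [Finset.card_insert_of_notMem ho] at h11
  omega

end Pool.Agent.H771.B
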