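import Pool.Agent.H771.Bound
import Pool.Agent.H771.B.Mult

/-!
# The density bound, second version
-/

namespace Pool.Agent.H771.B

open MeasureTheory Filter
open scoped RealInnerProductSpace ENNReal

theorem ZZ_eq (T : Tet) (w : ℝ) : ZZ T w = ⋃ p ∈ pairs, Z T w p.1 p.2 := by
  ext y
  simp only [ZZ, pairs, Set.mem_ofPred_eq, Set.mem_iUnion, Finset.mem_filter,
    Finset.mem_univ, true_and, Prod.exists]
  constructor
  · rintro ⟨a, b, h1, h2⟩
    exact ⟨a, b, h1, h2⟩
  · rintro ⟨a, b, h1, h2⟩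
    exact ⟨a, b, h1, h2⟩

theorem ZZ_meas (T : Tet) (w : ℝ) : MeasurableSet (ZZ T w) := by
  rw [ZZ_eq T]
  exact Finset.measurableSet_biUnion _ fun p _ => (isClosed_Z T w p.1 p.2).measurableSet

theorem Z_disj (T : Tet) {w : ℝ} (hw : 0 < w) {p q : Fin 4 × Fin 4} (hp : p ∈ pairs)
    (hq : q ∈ pairs) (hpq : p ≠ q) : Disjoint (Z T w p.1 p.2) (Z T w q.1 q.2) := by
  rw [Set.disjoint_left]
  rintro y ⟨h1, h2, h3⟩ ⟨h4, h5, h6⟩
  have hp' : p.1 < p.2 := (Finset.mem_filter.1 hp).2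
  have hq' : q.1 < q.2 := (Finset.mem_filter.1 hq).2
  -- one of the faces of `p` is not a face of `q`
  have key : (p.1 ≠ q.1 ∧ p.1 ≠ q.2) ∨ (p.2 ≠ q.1 ∧ p.2 ≠ q.2) := by
    by_contra hc
    rw [not_or, not_and_or, not_and_or, not_not, not_not, not_not, not_not] at hc
    obtain ⟨ha, hb⟩ := hc
    apply hpq
    rcases ha with ha | ha <;> rcases hb with hb | hb
    · rw [ha, hb] at hp'; exact absurd hp' (lt_irrefl _)
    · exact Prod.ext ha hb
    · rw [ha, hb] at hp'; exact absurd (hp'.trans hq') (lt_irrefl _)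
    · rw [ha, hb] at hp'; exact absurd hp' (lt_irrefl _)
  rcases key with ⟨ha, hb⟩ | ⟨ha, hb⟩
  · have := h6 p.1 ha hb
    have := (abs_le.1 h1).1
    linarith
  · have := h6 p.2 ha hb
    have := (abs_le.1 h2).1
    linarith

theorem ZZ_ball (T : Tet) {w : ℝ} (hw : 0 < w) (hw1 : w ≤ 1 / 5000) :
    ZZ T w ⊆ Metric.closedBall T.g 4 := by
  rintro y ⟨a, b, -, h1, h2, h3⟩
  have hf : ∀ k, T.f k y ≤ 7 * w := by
    intro k
    by_cases ha : k = a
    · rw [ha]; exact (abs_le.1 h1).2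
    · by_cases hb : k = b
      · rw [hb]; exact (abs_le.1 h2).2
      · have := h3 k ha hb
        linarith
  have hmem : T.g + (1 + 7 * w)⁻¹ • (y - T.g) ∈ T.S := by
    intro k
    have hk := hf k
    unfold Tet.f at hk ⊢
    rw [add_sub_cancel_left, inner_smul_right]
    have h4 : (1 + 7 * w)⁻¹ * ⟪T.ν k, y - T.g⟫ ≤ (1 + 7 * w)⁻¹ * (1 + 7 * w) :=
      mul_le_mul_of_nonneg_left (by linarith) (by positivity)
    rw [inv_mul_cancel₀ (by positivity)] at h4
    linarith
  have h4 := T.norm_sub_g hmem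
  rw [add_sub_cancel_left, norm_smul, norm_inv, Real.norm_eq_abs,
    abs_of_pos (by positivity), inv_mul_le_iff₀ (by positivity)] at h4
  rw [Metric.mem_closedBall, dist_eq_norm]
  linarith

/-- the uncovered volume near the edges of a member -/
theorem volume_ZZ {ι : Type*} [Countable ι] (F : Fam ι) (o : ι) :
    ENNReal.ofReal (55404 / 10 ^ 14) ≤
      volume (F.U ∩ ZZ (F.T o) (1329 / 10 ^ 7)) := by
  have hw : (0 : ℝ) < 1329 / 10 ^ 7 := by norm_num
  have hw1 : (1329 / 10 ^ 7 : ℝ) ≤ 1 / 5000 := by norm_num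
  set w : ℝ := 1329 / 10 ^ 7 with hwdef
  have h6 : 489897 / 100000 ≤ 2 * Real.sqrt 6 := by
    have : 489897 / 200000 ≤ Real.sqrt 6 := by
      rw [Real.le_sqrt' (by norm_num)]
      norm_num
    linarith
  have hedge : ∀ p ∈ pairs, ENNReal.ofReal (9234 / 10 ^ 14) ≤
      volume (F.U ∩ Z (F.T o) w p.1 p.2) := by
    intro p hp
    obtain ⟨c, d, hd⟩ := exists_compl p.1 p.2 (Finset.mem_filter.1 hp).2
    have h1 := edge_volume F o hd hw (by norm_num [hwdef]) 61
      (fun s hs => count_edge F o hd hw.le hw1 s hs)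
    refine le_trans ?_ h1
    have h2 : (16338 / 10000 : ℝ) ≤
        2 * Real.sqrt 6 - 2 * (389 * w) - (61 : ℕ) * (2 * (195 * w)) := by
      rw [hwdef]; push_cast; linarith
    rw [← ENNReal.ofReal_mul (by positivity),
      ← ENNReal.ofReal_mul (le_trans (by norm_num) h2)]
    apply ENNReal.ofReal_le_ofReal
    have h3 : (56519 / 10 ^ 15 : ℝ) ≤ w ^ 2 * (32 / 10000) := by
      rw [hwdef]
      norm_num
    calc (9234 / 10 ^ 14 : ℝ) ≤ 16338 / 10000 * (56519 / 10 ^ 15) := by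
          norm_num
      _ ≤ _ := mul_le_mul h2 h3 (by norm_num) (le_trans (by norm_num) h2)
  have hsum : ∑ p ∈ pairs, volume (F.U ∩ Z (F.T o) w p.1 p.2) =
      volume (F.U ∩ ZZ (F.T o) w) := by
    rw [ZZ_eq, Set.inter_iUnion₂, measure_biUnion_finset]
    · intro p hp q hq hpq
      exact (Z_disj (F.T o) hw hp hq hpq).mono Set.inter_subset_right Set.inter_subset_right
    · intro p _
      exact F.U_meas.inter (isClosed_Z (F.T o) w p.1 p.2).measurableSet
  rw [← hsum]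
  refine le_trans ?_ (Finset.sum_le_sum hedge)
  rw [Finset.sum_const, pairs_card, nsmul_eq_mul]
  have e : ((6 : ℕ) : ℝ≥0∞) = ENNReal.ofReal 6 := by norm_num
  rw [e, ← ENNReal.ofReal_mul (by norm_num)]
  apply ENNReal.ofReal_le_ofReal
  norm_num

theorem limsup_bound {ι : Type*} [Countable ι] (F : Fam ι) :
    limsup F.ratio atTop ≤ ENNReal.ofReal (1 - 799 / 10 ^ 14) := by
  have h := F.limsup_le (v0 := 55404 / 10 ^ 14) (by norm_num)
    (fun i => ZZ (F.T i) (1329 / 10 ^ 7)) (fun i => ZZ_meas (F.T i) _)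
    (fun i => volume_ZZ F i) (fun i => ZZ_ball (F.T i) (by norm_num) (by norm_num)) 5
    (fun P s hs => count_ZZ F (by norm_num) P s hs)
  refine h.trans (ENNReal.ofReal_le_ofReal ?_)
  have h3 : Real.sqrt 3 ≤ 173206 / 100000 := by
    rw [Real.sqrt_le_left (by norm_num)]
    norm_num
  have h30 : 0 ≤ Real.sqrt 3 := Real.sqrt_nonneg 3
  rw [div_le_iff₀ (by positivity)]
  push_cast
  nlinarith

end Pool.Agent.H771.B
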