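import Pool.Agent.H771.Ip

/-!
# Planar packing data, second version; at most seven members come near the origin
-/

namespace Pool.Agent.H771.B

open Complex

/-- planar packing data near a point of an edge -/
structure PD (ι : Type*) where
  /-- outward normals -/
  n : ι → Fin 4 → ℂ
  /-- offsets -/
  β : ι → Fin 4 → ℝ
  /-- active constraints -/
  C : ι → Finset (Fin 4)
  /-- the distinguished member -/
  o : ι
  C1 : ∀ j, (C j).Nonempty
  C2 : ∀ j, (C j).card ≤ 2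
  βlo : ∀ j, ∀ k ∈ C j, -(287 / 10) < β j k
  βhi : ∀ j, ∀ k ∈ C j, β j k ≤ 7
  n1 : ∀ j, ∀ k ∈ C j, ‖n j k‖ ≤ 1
  n2 : ∀ j, ∀ k ∈ C j, 1 - ((7 - β j k) / 195) ^ 2 ≤ ‖n j k‖ ^ 2
  nn : ∀ j, ∀ k ∈ C j, ∀ k' ∈ C j, k ≠ k' →
    |ip (n j k) (n j k') + 1 / 3| ≤ ((7 - β j k) / 195) * ((7 - β j k') / 195)
  dis : ∀ i j, i ≠ j → ∀ y : ℂ, ‖y‖ ≤ 287 / 10 → (∀ k ∈ C i, ip (n i k) y + β i k < 0) →
    (∀ k ∈ C j, ip (n j k) y + β j k < 0) → False
  oc : (C o).card = 2
  oβ : ∀ k ∈ C o, β o k = 0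

variable {ι : Type*}

/-- the constraint function -/
def PD.F (P : PD ι) (j : ι) (k : Fin 4) (y : ℂ) : ℝ := ip (P.n j k) y + P.β j k

/-- the member `j` meets the disc of radius `7` -/
def PD.InJ (P : PD ι) (j : ι) : Prop := ∃ y, ‖y‖ ≤ 7 ∧ ∀ k ∈ P.C j, P.F j k y ≤ 0

theorem PD.F_add (P : PD ι) (j : ι) (k : Fin 4) (y v : ℂ) :
    P.F j k (y + v) = P.F j k y + ip (P.n j k) v := by
  unfold PD.F
  rw [ip_add_right]; ring

theorem PD.F_comb (P : PD ι) (j : ι) (k : Fin 4) (x y : ℂ) (t : ℝ) :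
    P.F j k (x + (t : ℂ) * (y - x)) = (1 - t) * P.F j k x + t * P.F j k y := by
  rw [P.F_add, ip_smul_right, ip_sub_right]
  unfold PD.F
  ring

theorem PD.F_lip (P : PD ι) (j : ι) (k : Fin 4) (hk : k ∈ P.C j) (y z : ℂ) :
    P.F j k z ≤ P.F j k y + ‖z - y‖ := by
  have h : z = y + (z - y) := by ring
  rw [h, P.F_add]
  have h1 := ip_le (P.n j k) (z - y)
  have h2 := P.n1 j k hk
  have h3 := norm_nonneg (z - y)
  have h4 : y + (z - y) - y = z - y := by ring
  rw [h4]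
  nlinarith

theorem PD.F_cont (P : PD ι) (j : ι) (k : Fin 4) : Continuous (P.F j k) := by
  unfold PD.F ip
  fun_prop

theorem PD.card_cases (P : PD ι) (j : ι) :
    (∃ k, P.C j = {k}) ∨ ∃ k k', k ≠ k' ∧ P.C j = {k, k'} := by
  have h1 := P.C2 j
  have h2 := Finset.card_pos.2 (P.C1 j)
  obtain h | h : (P.C j).card = 1 ∨ (P.C j).card = 2 := by omega
  · exact Or.inl (Finset.card_eq_one.1 h)
  · exact Or.inr (Finset.card_eq_two.1 h)

theorem PD.norm_n (P : PD ι) (j : ι) (k : Fin 4) (hk : k ∈ P.C j) :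
    1 - 33518 / 1000000 ≤ ‖P.n j k‖ ^ 2 := by
  have h1 := P.n2 j k hk
  have h2 := P.βlo j k hk
  have h3 := P.βhi j k hk
  nlinarith

theorem PD.exists_dir (P : PD ι) (j : ι) :
    ∃ u : ℂ, ‖u‖ = 1 ∧ ∀ k ∈ P.C j, ip (P.n j k) u ≤ -(5067 / 10000) := by
  -- it is enough to find `m ≠ 0` with `ip n m ≥ (5067/10000) ‖m‖`
  have key : ∀ m : ℂ, 0 < ‖m‖ → (∀ k ∈ P.C j, 5067 / 10000 * ‖m‖ ≤ ip (P.n j k) m) →
      ∃ u : ℂ, ‖u‖ = 1 ∧ ∀ k ∈ P.C j, ip (P.n j k) u ≤ -(5067 / 10000) := by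
    intro m hm h
    refine ⟨((-(‖m‖⁻¹) : ℝ) : ℂ) * m, ?_, fun k hk => ?_⟩
    · rw [norm_mul, Complex.norm_real, norm_neg, norm_inv, norm_norm, inv_mul_cancel₀ hm.ne']
    · rw [ip_smul_right]
      have h1 := h k hk
      have h2 : 5067 / 10000 ≤ ‖m‖⁻¹ * ip (P.n j k) m := by
        rw [inv_mul_eq_div, le_div_iff₀ hm]
        exact h1
      linarith
  rcases P.card_cases j with ⟨k, hk⟩ | ⟨k, k', hkk, hk⟩
  · have hmem : k ∈ P.C j := by rw [hk]; simp
    have h1 := P.norm_n j k hmem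
    have h0 : 5067 / 10000 ≤ ‖P.n j k‖ := by
      by_contra h
      push Not at h
      nlinarith [norm_nonneg (P.n j k)]
    refine key (P.n j k) (by linarith) ?_
    intro l hl
    rw [hk, Finset.mem_singleton] at hl
    rw [hl, ← norm_sq_ip]
    nlinarith
  · have hm1 : k ∈ P.C j := by rw [hk]; simp
    have hm2 : k' ∈ P.C j := by rw [hk]; simp
    have h1 := P.norm_n j k hm1
    have h2 := P.norm_n j k' hm2
    have h3 := P.nn j k hm1 k' hm2 hkk
    have h4 := P.n1 j k hm1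
    have h5 := P.n1 j k' hm2
    have h6 : ((7 - P.β j k) / 195) * ((7 - P.β j k') / 195) ≤ 33518 / 1000000 := by
      have a1 := P.βlo j k hm1
      have a2 := P.βhi j k hm1
      have a3 := P.βlo j k' hm2
      have a4 := P.βhi j k' hm2
      have b1 : (7 - P.β j k) / 195 ≤ 357 / 1950 := by linarith
      have b2 : (7 - P.β j k') / 195 ≤ 357 / 1950 := by linarith
      have b3 : 0 ≤ (7 - P.β j k) / 195 := by linarith
      have b4 : 0 ≤ (7 - P.β j k') / 195 := by linarith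
      nlinarith
    have h7 := abs_le.1 (h3.trans h6)
    have n0 := norm_nonneg (P.n j k)
    have n0' := norm_nonneg (P.n j k')
    have h8 : ‖P.n j k + P.n j k'‖ ^ 2 =
        ‖P.n j k‖ ^ 2 + ‖P.n j k'‖ ^ 2 + 2 * ip (P.n j k) (P.n j k') := by
      rw [norm_sq_ip, norm_sq_ip, norm_sq_ip, ip_add_left, ip_add_right, ip_add_right,
        ip_comm (P.n j k') (P.n j k)]
      ring
    have h9 : ‖P.n j k + P.n j k'‖ ^ 2 ≤ 14003694 / 10000000 := by nlinarith
    have h10 : ‖P.n j k + P.n j k'‖ ≤ 118338 / 100000 := by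
      by_contra h
      push Not at h
      nlinarith
    have h11 : 0 < ‖P.n j k + P.n j k'‖ := by
      by_contra h
      push Not at h
      have : ‖P.n j k + P.n j k'‖ = 0 := le_antisymm h (norm_nonneg _)
      rw [this] at h8
      nlinarith
    refine key (P.n j k + P.n j k') h11 ?_
    intro l hl
    rw [hk, Finset.mem_insert, Finset.mem_singleton] at hl
    rcases hl with hl | hl
    · rw [hl, ip_add_right, ← norm_sq_ip]
      nlinarith
    · rw [hl, ip_add_right, ← norm_sq_ip, ip_comm]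
      nlinarith

theorem cos_pi_div_four_sq : Real.cos (Real.pi / 4) ^ 2 = 1 / 2 := by
  rw [Real.cos_pi_div_four, div_pow, Real.sq_sqrt (by norm_num)]
  norm_num

/-- two of eight nonzero vectors in the plane make an angle of at most forty-five degrees -/
theorem eight_vectors (Y : Fin 8 → ℂ) (hY : ∀ i, Y i ≠ 0) :
    ∃ i j, i ≠ j ∧ Real.cos (Real.pi / 4) * (‖Y i‖ * ‖Y j‖) ≤ ip (Y i) (Y j) := by
  by_contra hcon
  push Not at hcon
  set θ : Fin 8 → ℝ := fun i => arg (Y i / Y 0) with hθ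
  have hlo : ∀ i, -Real.pi < θ i := fun i => Complex.neg_pi_lt_arg _
  have hhi : ∀ i, θ i ≤ Real.pi := fun i => Complex.arg_le_pi _
  have h0 : θ 0 = 0 := by simp [hθ]
  have hn0 : 0 < ‖Y 0‖ := norm_pos_iff.2 (hY 0)
  have hpi := Real.pi_pos
  have hfar : ∀ i j, i ≠ j → Real.pi / 4 < |θ i - θ j| := by
    intro i j hij
    by_contra h
    push Not at h
    have h1 := ip_eq_arg (Y i / Y 0) (Y j / Y 0)
    have h2 : Real.cos (Real.pi / 4) ≤ Real.cos (arg (Y i / Y 0) - arg (Y j / Y 0)) := by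
      rw [← Real.cos_abs (arg (Y i / Y 0) - arg (Y j / Y 0))]
      apply Real.cos_le_cos_of_nonneg_of_le_pi (abs_nonneg _) _ h
      linarith
    have h3 : ip (Y i / Y 0) (Y j / Y 0) * ‖Y 0‖ ^ 2 = ip (Y i) (Y j) := by
      have e1 : Y i = Y 0 * (Y i / Y 0) := by field_simp [hY 0]
      have e2 : Y j = Y 0 * (Y j / Y 0) := by field_simp [hY 0]
      have e3 : ip (Y 0 * (Y i / Y 0)) (Y 0 * (Y j / Y 0)) =
          ip (Y i / Y 0) (Y j / Y 0) * ip (Y 0) (Y 0) := by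
        simp only [ip, mul_re, mul_im]; ring
      rw [norm_sq_ip, ← e3, ← e1, ← e2]
    have h4 : ‖Y i / Y 0‖ * ‖Y j / Y 0‖ * ‖Y 0‖ ^ 2 = ‖Y i‖ * ‖Y j‖ := by
      rw [norm_div, norm_div]
      field_simp
    have h5 := hcon i j hij
    rw [← h3, h1, ← h4] at h5
    have h6 : 0 ≤ ‖Y i / Y 0‖ * ‖Y j / Y 0‖ * ‖Y 0‖ ^ 2 := by positivity
    have h7 := mul_le_mul_of_nonneg_right h2 h6
    nlinarith
  have hb : ∀ i : Fin 7, Real.pi / 4 < |θ i.succ| := by
    intro i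
    have := hfar i.succ 0 (Fin.succ_ne_zero i)
    rwa [h0, sub_zero] at this
  let b : Fin 7 → Fin 6 := fun i =>
    if 0 < θ i.succ then
      (if θ i.succ ≤ 2 * Real.pi / 4 then 0 else if θ i.succ ≤ 3 * Real.pi / 4 then 1 else 2)
    else
      (if -(2 * Real.pi / 4) ≤ θ i.succ then 3 else if -(3 * Real.pi / 4) ≤ θ i.succ then 4 else 5)
  obtain ⟨i, j, hij, hbij⟩ := Fintype.exists_ne_map_eq_of_card_lt b (by simp)
  have hij' : (i.succ : Fin 8) ≠ j.succ := fun h => hij (Fin.succ_injective _ h)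
  have h1 := hfar _ _ hij'
  have h2 := hb i
  have h3 := hb j
  have h4 := hlo i.succ
  have h5 := hlo j.succ
  have h6 := hhi i.succ
  have h7 := hhi j.succ
  simp only [b] at hbij
  rcases lt_abs.1 h1 with h1 | h1 <;> rcases lt_abs.1 h2 with h2 | h2 <;>
    rcases lt_abs.1 h3 with h3 | h3 <;> split_ifs at hbij <;> first | linarith | simp at hbij

theorem chord_aux {a b : ℝ} (ha : 147 / 10 ≤ a) (hb2 : b ≤ 287 / 10) (h : a ≤ b) :
    a ^ 2 + b ^ 2 - 2 * (70710 / 100000 * (a * b)) ≤ 48256 / 100 := by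
  have h1 : 0 ≤ (287 / 10 - b) * (287 / 10 + b - 2 * (70710 / 100000) * a) :=
    mul_nonneg (by linarith) (by linarith)
  have h2 : 0 ≤ (a - 147 / 10) * (287 / 10 - a) := mul_nonneg (by linarith) (by linarith)
  nlinarith

theorem chord_bound {a b c D : ℝ} (hc : c ^ 2 = 1 / 2) (hc0 : 0 < c) (ha : 147 / 10 ≤ a)
    (ha2 : a ≤ 287 / 10) (hb : 147 / 10 ≤ b) (hb2 : b ≤ 287 / 10)
    (hD : D ^ 2 ≤ a ^ 2 + b ^ 2 - 2 * (c * (a * b))) (hD0 : 0 ≤ D) :
    D / 2 ≤ 1099 / 100 := by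
  have hc1 : 70710 / 100000 ≤ c := by
    by_contra h
    push Not at h
    nlinarith
  have h1 : a ^ 2 + b ^ 2 - 2 * (c * (a * b)) ≤ 48256 / 100 := by
    have h2 : 70710 / 100000 * (a * b) ≤ c * (a * b) :=
      mul_le_mul_of_nonneg_right hc1 (by positivity)
    rcases le_total a b with h | h
    · have := chord_aux ha hb2 h
      linarith
    · have := chord_aux hb ha2 h
      rw [mul_comm b a] at this
      linarith
  by_contra hcon
  push Not at hcon
  nlinarith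

/-- at most seven members meet the disc of radius `7` -/
theorem PD.count (P : PD ι) (f : Fin 8 → ι) (hf : ∀ i, P.InJ (f i)) :
    ¬ Function.Injective f := by
  intro hinj
  choose y hy1 hy2 using hf
  choose u hu1 hu2 using P.exists_dir
  set Y : Fin 8 → ℂ := fun i => y i + ((217 / 10 : ℝ) : ℂ) * u (f i) with hY
  have hv : ∀ i, ‖((217 / 10 : ℝ) : ℂ) * u (f i)‖ = 217 / 10 := by
    intro i
    rw [norm_mul, Complex.norm_real, hu1, mul_one, Real.norm_eq_abs,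
      abs_of_nonneg (by norm_num)]
  have hYn : ∀ i, ‖Y i‖ ≤ 287 / 10 := by
    intro i
    have := norm_add_le (y i) (((217 / 10 : ℝ) : ℂ) * u (f i))
    rw [hv i] at this
    have h2 := hy1 i
    simp only [hY]
    linarith
  have hYlo : ∀ i, 147 / 10 ≤ ‖Y i‖ := by
    intro i
    have := norm_sub_norm_le (((217 / 10 : ℝ) : ℂ) * u (f i)) (-(y i))
    rw [hv i, norm_neg, sub_neg_eq_add, add_comm (((217 / 10 : ℝ) : ℂ) * u (f i))] at this
    have h2 := hy1 i
    simp only [hY]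
    linarith
  have hY0 : ∀ i, Y i ≠ 0 := by
    intro i h
    have := hYlo i
    rw [h, norm_zero] at this
    norm_num at this
  have hF : ∀ i, ∀ k ∈ P.C (f i), P.F (f i) k (Y i) ≤ -(5067 / 10000 * (217 / 10)) := by
    intro i k hk
    simp only [hY]
    rw [P.F_add, ip_smul_right]
    have h1 := hy2 i k hk
    have h2 := hu2 (f i) k hk
    linarith
  obtain ⟨i, j, hij, hd⟩ := eight_vectors Y hY0
  have hc0 : 0 < Real.cos (Real.pi / 4) := by
    rw [Real.cos_pi_div_four]; positivity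
  have hdn : ‖Y i - Y j‖ ^ 2 ≤ ‖Y i‖ ^ 2 + ‖Y j‖ ^ 2 -
      2 * (Real.cos (Real.pi / 4) * (‖Y i‖ * ‖Y j‖)) := by
    have h1 : ‖Y i - Y j‖ ^ 2 = ‖Y i‖ ^ 2 + ‖Y j‖ ^ 2 - 2 * ip (Y i) (Y j) := by
      rw [norm_sq_ip, norm_sq_ip, norm_sq_ip, ip_sub_left, ip_sub_right, ip_sub_right,
        ip_comm (Y j) (Y i)]
      ring
    rw [h1]
    linarith
  have hd2 := chord_bound cos_pi_div_four_sq hc0 (hYlo i) (hYn i) (hYlo j) (hYn j) hdn
    (norm_nonneg _)
  set M : ℂ := (Y i + Y j) / 2 with hM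
  have hMn : ‖M‖ ≤ 287 / 10 := by
    rw [hM, norm_div]
    have h1 := norm_add_le (Y i) (Y j)
    have h2 := hYn i
    have h3 := hYn j
    have h4 : ‖(2 : ℂ)‖ = 2 := by simp
    rw [h4, div_le_iff₀ (by norm_num)]
    linarith
  have e1 : ‖M - Y i‖ ≤ 1099 / 100 := by
    have : M - Y i = -((Y i - Y j) / 2) := by rw [hM]; ring
    rw [this, norm_neg, norm_div]
    have h4 : ‖(2 : ℂ)‖ = 2 := by simp
    rw [h4]; linarith
  have e2 : ‖M - Y j‖ ≤ 1099 / 100 := by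
    have : M - Y j = (Y i - Y j) / 2 := by rw [hM]; ring
    rw [this, norm_div]
    have h4 : ‖(2 : ℂ)‖ = 2 := by simp
    rw [h4]; linarith
  refine P.dis (f i) (f j) (fun h => hij (hinj h)) M hMn ?_ ?_
  · intro k hk
    have h1 := P.F_lip (f i) k hk (Y i) M
    have h2 := hF i k hk
    have h3 : P.F (f i) k M < 0 := by linarith
    exact h3
  · intro k hk
    have h1 := P.F_lip (f j) k hk (Y j) M
    have h2 := hF j k hk
    have h3 : P.F (f j) k M < 0 := by linarith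
    exact h3

end Pool.Agent.H771.B
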