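import Pool.Agent.H771.B.Count

/-!
# Boundary lines and apexes, second version
-/

namespace Pool.Agent.H771.B

open Complex

variable {ι : Type*}

/-- two constraints with a common zero in the disc of radius `R` -/
def Inner (P : PD ι) (R : ℝ) (j : ι) : Prop :=
  (P.C j).card = 2 ∧ ∃ c : ℂ, ‖c‖ ≤ R ∧ ∀ k ∈ P.C j, P.F j k c = 0

/-- `d` is the direction of the left boundary ray of the wedge `j` -/
def Exit (P : PD ι) (j : ι) (d : ℂ) : Prop :=
  ‖d‖ = 1 ∧ ∃ k ∈ P.C j, P.n j k = ((‖P.n j k‖ : ℝ) : ℂ) * (I * d) ∧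
    ∀ κ ∈ P.C j, κ ≠ k → ip (P.n j κ) d < 0

/-- no apex in the annulus between the radii `R` and `R + 1` -/
def Gap (P : PD ι) (R : ℝ) : Prop :=
  ∀ j, P.InJ j → (P.C j).card = 2 → ∀ c : ℂ, (∀ k ∈ P.C j, P.F j k c = 0) →
    ¬ (R < ‖c‖ ∧ ‖c‖ ≤ R + 1)

theorem PD.two (P : PD ι) {j : ι} (h2 : (P.C j).card = 2) {k : Fin 4} (hk : k ∈ P.C j) :
    ∃ κ ∈ P.C j, κ ≠ k ∧ ∀ l ∈ P.C j, l = k ∨ l = κ := by
  obtain ⟨a, b, hab, hC⟩ := Finset.card_eq_two.1 h2
  rw [hC] at hk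
  rw [hC]
  simp only [Finset.mem_insert, Finset.mem_singleton] at hk ⊢
  rcases hk with hk | hk
  · exact ⟨b, Or.inr rfl, by rw [hk]; exact hab.symm, by rw [hk]; exact fun l hl => hl⟩
  · exact ⟨a, Or.inl rfl, by rw [hk]; exact hab, by rw [hk]; exact fun l hl => hl.symm⟩

theorem PD.card_two (P : PD ι) {j : ι} {k κ : Fin 4} (hk : k ∈ P.C j) (hκ : κ ∈ P.C j)
    (h : κ ≠ k) : (P.C j).card = 2 := by
  have h1 := P.C2 j
  have h2 : ({k, κ} : Finset (Fin 4)) ⊆ P.C j := by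
    intro l hl
    simp only [Finset.mem_insert, Finset.mem_singleton] at hl
    rcases hl with hl | hl <;> rw [hl] <;> assumption
  have h3 := Finset.card_le_card h2
  rw [Finset.card_pair h.symm] at h3
  omega

theorem PD.all_of_two (P : PD ι) {j : ι} {k κ : Fin 4} (hk : k ∈ P.C j) (hκ : κ ∈ P.C j)
    (h : κ ≠ k) {p : Fin 4 → Prop} (h1 : p k) (h2 : p κ) : ∀ l ∈ P.C j, p l := by
  obtain ⟨κ', hκ', hne', hall⟩ := P.two (P.card_two hk hκ h) hk
  have hκκ : κ' = κ := by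
    rcases hall κ hκ with h | h'
    · exact absurd h (by assumption)
    · exact h'.symm
  intro l hl
  rcases hall l hl with h | h
  · rw [h]; exact h1
  · rw [h, hκκ]; exact h2

/-- the offset of a constraint that is not very negative at a near point -/
theorem PD.beta_ge (P : PD ι) {j : ι} {k : Fin 4} (hk : k ∈ P.C j) {z : ℂ} {r δ : ℝ}
    (hz : ‖z‖ ≤ r) (h : -δ ≤ P.F j k z) : -(r + δ) ≤ P.β j k := by
  unfold PD.F at h
  have h1 := ip_le (P.n j k) z
  have h2 := P.n1 j k hk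
  have h3 := norm_nonneg z
  nlinarith

theorem PD.norm_of_beta (P : PD ι) {j : ι} {k : Fin 4} (hk : k ∈ P.C j)
    (h : -7 ≤ P.β j k) : 9974 / 10000 ≤ ‖P.n j k‖ := by
  have h1 := P.n2 j k hk
  have h2 := P.βhi j k hk
  have h3 := norm_nonneg (P.n j k)
  have h4 : ((7 - P.β j k) / 195) ^ 2 ≤ (14 / 195) ^ 2 :=
    pow_le_pow_left₀ (by linarith) (by linarith) 2
  by_contra hc
  push Not at hc
  nlinarith

theorem li_eps {x y : ℝ} (hx : -7 ≤ x) (hy : -7 ≤ y) (hx2 : x ≤ 7) (hy2 : y ≤ 7) :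
    ((7 - x) / 195) * ((7 - y) / 195) ≤ 5155 / 1000000 := by
  have h1 : (7 - x) / 195 ≤ 14 / 195 := by linarith
  have h2 : (7 - y) / 195 ≤ 14 / 195 := by linarith
  have h3 : 0 ≤ (7 - x) / 195 := by linarith
  have h4 : 0 ≤ (7 - y) / 195 := by linarith
  nlinarith

theorem li_b {ν b p : ℝ} (hν : 9974 / 10000 ≤ ν) (hb : ν * b = p)
    (hp : |p + 1 / 3| ≤ 5155 / 1000000) : -(34 / 100) ≤ b ∧ b < 0 := by
  obtain ⟨h1, h2⟩ := abs_le.1 hp
  constructor
  · by_contra hc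
    push Not at hc
    nlinarith
  · by_contra hc
    push Not at hc
    nlinarith

theorem li_a {a b N : ℝ} (hN : N ^ 2 = a ^ 2 + b ^ 2) (hN2 : 9974 / 10000 ≤ N)
    (hb : |b| ≤ 34 / 100) : 937 / 1000 ≤ |a| := by
  have h1 : b ^ 2 ≤ (34 / 100) ^ 2 := by
    rw [← sq_abs b]; exact pow_le_pow_left₀ (abs_nonneg b) hb 2
  have h2 : (937 / 1000) ^ 2 ≤ |a| ^ 2 := by
    rw [sq_abs]; nlinarith
  exact (pow_le_pow_iff_left₀ (by norm_num) (abs_nonneg _) two_ne_zero).1 h2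

/-- components of the normals of a wedge with near constraints -/
theorem PD.wedge (P : PD ι) {j : ι} {k κ : Fin 4} (hk : k ∈ P.C j) (hκ : κ ∈ P.C j)
    (hne : κ ≠ k) (hβk : -7 ≤ P.β j k) (hβκ : -7 ≤ P.β j κ) {e : ℂ} (he : ‖e‖ = 1) {ν : ℝ}
    (hn : P.n j k = (ν : ℂ) * (I * e)) (hν : 0 < ν) :
    937 / 1000 ≤ |ip (P.n j κ) e| ∧ -(34 / 100) ≤ ip (P.n j κ) (I * e) ∧
      ip (P.n j κ) (I * e) < 0 := by
  have hνn : ‖P.n j k‖ = ν := by
    rw [hn, norm_mul, norm_real, norm_mul, norm_I, he, Real.norm_eq_abs, abs_of_pos hν]; ring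
  have hν2 := P.norm_of_beta hk hβk
  rw [hνn] at hν2
  have hνκ := P.norm_of_beta hκ hβκ
  have hb : ν * ip (P.n j κ) (I * e) = ip (P.n j k) (P.n j κ) := by
    rw [hn, ip_smul_left, ip_comm (I * e)]
  have h1 := P.nn j k hk κ hκ (fun e => hne e.symm)
  have h2 := li_eps hβk hβκ (P.βhi j k hk) (P.βhi j κ hκ)
  obtain ⟨h3, h4⟩ := li_b hν2 hb (h1.trans h2)
  refine ⟨li_a (norm_sq_expand (P.n j κ) e he) hνκ ?_, h3, h4⟩
  rw [abs_of_neg h4]; linarith

/-- a unit vector along a constraint line -/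
theorem PD.exists_frame (P : PD ι) {j : ι} {k : Fin 4} (hk : k ∈ P.C j) :
    ∃ e : ℂ, ‖e‖ = 1 ∧ P.n j k = ((‖P.n j k‖ : ℝ) : ℂ) * (I * e) ∧ 0 < ‖P.n j k‖ := by
  have h1 := P.norm_n j k hk
  have hN0 : 0 < ‖P.n j k‖ := by
    by_contra hcon
    push Not at hcon
    have : ‖P.n j k‖ = 0 := le_antisymm hcon (norm_nonneg _)
    rw [this] at h1
    norm_num at h1
  have hNc : ((‖P.n j k‖ : ℝ) : ℂ) ≠ 0 := by exact_mod_cast hN0.ne'
  refine ⟨((‖P.n j k‖⁻¹ : ℝ) : ℂ) * (-(I * P.n j k)), ?_, ?_, hN0⟩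
  · rw [norm_mul, norm_real, norm_neg, norm_mul, norm_I, norm_inv, norm_norm, one_mul,
      inv_mul_cancel₀ hN0.ne']
  · push_cast
    have hI : I * (((‖P.n j k‖ : ℝ) : ℂ)⁻¹ * (-(I * P.n j k))) =
        (((‖P.n j k‖ : ℝ) : ℂ)⁻¹ * P.n j k) := by
      linear_combination (-(((‖P.n j k‖ : ℝ) : ℂ)⁻¹ * P.n j k)) * Complex.I_mul_I
    rw [hI]
    field_simp

/-- a zero of one constraint where the other is small is near the apex -/
theorem PD.apex_near (P : PD ι) {j : ι} {k κ : Fin 4} (hk : k ∈ P.C j) (hκ : κ ∈ P.C j)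
    (hne : κ ≠ k) (hβk : -7 ≤ P.β j k) (hβκ : -7 ≤ P.β j κ) {z : ℂ} {δ : ℝ}
    (h0 : P.F j κ z = 0) (hδ : |P.F j k z| ≤ δ) :
    ∃ c, ‖c - z‖ ≤ 107 / 100 * δ ∧ ∀ l ∈ P.C j, P.F j l c = 0 := by
  obtain ⟨e, he, hn, hN⟩ := P.exists_frame hκ
  obtain ⟨ha, -, -⟩ := P.wedge hκ hk hne.symm hβκ hβk he hn hN
  set a := ip (P.n j k) e with ha'
  have ha0 : a ≠ 0 := by
    intro h
    rw [h, abs_zero] at ha
    norm_num at ha
  set s : ℝ := -(P.F j k z) / a with hs
  have has : a * s = -(P.F j k z) := by rw [hs]; field_simp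
  have hs1 : |s| ≤ 107 / 100 * δ := by
    have h1 : |a| * |s| = |P.F j k z| := by rw [← abs_mul, has, abs_neg]
    have h2 := abs_nonneg s
    nlinarith
  refine ⟨z + (s : ℂ) * e, ?_, ?_⟩
  · rw [add_sub_cancel_left, norm_mul, he, norm_real, Real.norm_eq_abs, mul_one]
    exact hs1
  · refine P.all_of_two hk hκ hne ?_ ?_
    · rw [P.F_add, ip_smul_right, ← ha']
      linarith
    · rw [P.F_add, ip_smul_right, h0, hn, ip_smul_left, ip_comm (I * e), ip_I_self]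
      ring

/-- small scalar with a negativity property -/
theorem small_scalar {κ : Type*} (s : Finset κ) (f : κ → ℝ) (hf : ∀ i ∈ s, f i < 0) :
    ∃ r : ℝ, 0 < r ∧ r ≤ 1 ∧ ∀ i ∈ s, f i + r < 0 := by
  induction s using Finset.cons_induction with
  | empty => exact ⟨1, one_pos, le_rfl, fun i hi => absurd hi (Finset.notMem_empty i)⟩
  | cons a s ha ih =>
    obtain ⟨r, hr0, hr1, hr⟩ := ih (fun i hi => hf i (Finset.mem_cons_of_mem hi))
    have h1 := hf a (Finset.mem_cons_self a s)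
    refine ⟨min r (-(f a) / 2), lt_min hr0 (by linarith), (min_le_left _ _).trans hr1, ?_⟩
    intro i hi
    rcases Finset.mem_cons.1 hi with h | h
    · rw [h]
      have := min_le_right r (-(f a) / 2)
      linarith
    · have := min_le_left r (-(f a) / 2)
      have := hr i h
      linarith

/-- a boundary point of one member is not interior to another -/
theorem PD.bdry (P : PD ι) {j j' : ι} (hne : j ≠ j') {k : Fin 4} (hk : k ∈ P.C j) {z : ℂ}
    (hz : ‖z‖ ≤ 27) (h0 : P.F j k z = 0) (hcl : ∀ κ ∈ P.C j, κ ≠ k → P.F j κ z < 0) :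
    ∃ k' ∈ P.C j', 0 ≤ P.F j' k' z := by
  by_contra hcon
  push Not at hcon
  obtain ⟨r1, hr10, hr11, hr1⟩ := small_scalar (P.C j') (fun κ => P.F j' κ z) hcon
  obtain ⟨r2, hr20, hr21, hr2⟩ := small_scalar ((P.C j).erase k) (fun κ => P.F j κ z) (by
    intro κ hκ
    exact hcl κ (Finset.mem_of_mem_erase hκ) (Finset.ne_of_mem_erase hκ))
  set r := min r1 r2 with hr
  have hr0 : 0 < r := lt_min hr10 hr20
  have hrr1 : r ≤ r1 := min_le_left _ _
  have hrr2 : r ≤ r2 := min_le_right _ _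
  set z' : ℂ := z + ((-r : ℝ) : ℂ) * P.n j k with hz'
  have hn1 := P.n1 j k hk
  have hzn : ‖z' - z‖ ≤ r := by
    rw [hz', add_sub_cancel_left, norm_mul, norm_real, Real.norm_eq_abs, abs_neg, abs_of_pos hr0]
    nlinarith
  have hzz : ‖z'‖ ≤ 287 / 10 := by
    have h1 := norm_add_le z (z' - z)
    rw [add_sub_cancel] at h1
    linarith
  refine P.dis j j' hne z' hzz ?_ ?_
  · intro κ hκ
    by_cases h : κ = k
    · rw [h]
      change P.F j k z' < 0
      rw [hz', P.F_add, h0, ip_smul_right, ← norm_sq_ip]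
      have h2 := P.norm_n j k hk
      nlinarith
    · have h3 := P.F_lip j κ hκ z z'
      have h4 := hr2 κ (Finset.mem_erase.2 ⟨h, hκ⟩)
      change P.F j κ z' < 0
      linarith
  · intro κ hκ
    have h3 := P.F_lip j' κ hκ z z'
    have h4 := hr1 κ hκ
    change P.F j' κ z' < 0
    linarith

/-- an affine function that changes sign has a zero on the segment -/
theorem PD.zero_between (P : PD ι) (j : ι) (k : Fin 4) {x y : ℂ} (hx : P.F j k x ≤ 0)
    (hy : 0 ≤ P.F j k y) : ∃ t : ℝ, 0 ≤ t ∧ t ≤ 1 ∧ P.F j k (x + (t : ℂ) * (y - x)) = 0 := by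
  rcases eq_or_lt_of_le hx with h | h
  · exact ⟨0, le_rfl, zero_le_one, by rw [P.F_comb, h]; ring⟩
  · have hd : 0 < P.F j k y - P.F j k x := by linarith
    refine ⟨-(P.F j k x) / (P.F j k y - P.F j k x), div_nonneg (by linarith) hd.le, ?_, ?_⟩
    · rw [div_le_one hd]; linarith
    · rw [P.F_comb]
      have h1 : -(P.F j k x) / (P.F j k y - P.F j k x) * (P.F j k y - P.F j k x) =
          -(P.F j k x) := by field_simp
      linarith

/-- a boundary line of a wedge in the left position -/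
structure LineSt (P : PD ι) (R : ℝ) (j : ι) (k : Fin 4) (d : ℂ) (ν b : ℝ) : Prop where
  inJ : P.InJ j
  mem : k ∈ P.C j
  dn : ‖d‖ = 1
  νlo : 9974 / 10000 ≤ ν
  νhi : ν ≤ 1
  hn : P.n j k = (ν : ℂ) * (I * d)
  hβ : |P.β j k| ≤ b * ν
  clr : ∀ z, P.F j k z = 0 → 0 < ip z d → R < ‖z‖ → ‖z‖ ≤ R + 1 →
      ∀ κ ∈ P.C j, κ ≠ k → P.F j κ z < 0

theorem inner_line (P : PD ι) {R : ℝ} (hR6 : R ≤ 6) {j : ι} (hj : P.InJ j)
    (hin : Inner P R j) {d : ℂ} (hd : Exit P j d) :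
    ∃ k ν, LineSt P R j k d ν R := by
  obtain ⟨hcard, c, hc, hF⟩ := hin
  obtain ⟨hdn, k, hk, hn, hneg⟩ := hd
  have hβk : -7 ≤ P.β j k := by
    have := P.beta_ge hk hc (δ := 0) (by rw [hF k hk]; norm_num)
    linarith
  have hνk := P.norm_of_beta hk hβk
  have hν1 := P.n1 j k hk
  refine ⟨k, ‖P.n j k‖, ⟨hj, hk, hdn, by linarith, hν1, hn, ?_, ?_⟩⟩
  · have h1 : P.β j k = -(‖P.n j k‖ * ip (I * d) c) := by
      have := hF k hk
      unfold PD.F at this
      rw [hn, ip_smul_left] at this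
      linarith
    rw [h1, abs_neg, abs_mul, abs_of_nonneg (norm_nonneg _)]
    have h2 := abs_ip_le (I * d) c
    rw [norm_mul, norm_I, hdn, one_mul, one_mul] at h2
    have h3 := norm_nonneg (P.n j k)
    have h4 := mul_le_mul_of_nonneg_left (h2.trans hc) h3
    linarith
  · intro z hz1 hz2 hz3 _ κ hκ hne
    set ν := ‖P.n j k‖ with hν
    have hν0 : 0 < ν := by linarith
    have hL : ν * ip (z - c) (I * d) = 0 := by
      have h1 := hF k hk
      unfold PD.F at h1 hz1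
      rw [hn, ip_smul_left] at h1 hz1
      rw [ip_sub_left, ip_comm z, ip_comm c]
      linarith
    have hL2 : ip (z - c) (I * d) = 0 := by
      rcases mul_eq_zero.1 hL with h | h
      · exact absurd h hν0.ne'
      · exact h
    have hX : 0 < ip (z - c) d := by
      rw [ip_sub_left] at hL2 ⊢
      have h1 := norm_sq_expand z d hdn
      have h2 := norm_sq_expand c d hdn
      have h3 : ‖c‖ ^ 2 < ‖z‖ ^ 2 :=
        pow_lt_pow_left₀ (by linarith) (norm_nonneg _) two_ne_zero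
      have h4 : ip z (I * d) = ip c (I * d) := by linarith
      rw [h4] at h1
      by_contra hcon
      push Not at hcon
      nlinarith
    have hneg' := hneg κ hκ hne
    have hval : P.F j κ z = ip (P.n j κ) d * ip (z - c) d := by
      have h5 := ip_expand (P.n j κ) (z - c) d hdn
      rw [hL2, mul_zero, add_zero] at h5
      rw [← h5]
      have h1 := hF κ hκ
      unfold PD.F at h1 ⊢
      rw [ip_sub_right]
      linarith
    rw [hval]
    exact mul_neg_of_neg_of_pos hneg' hX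

end Pool.Agent.H771.B
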