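import Pool.Agent.H771.B.Area
import Pool.Agent.H771.Next

/-!
# The member on the other side: inner and outer, second version
-/

namespace Pool.Agent.H771.B

open Complex MeasureTheory
open scoped ENNReal

variable {ι : Type*}

theorem inner_side {R Xy Yy Xc Yc Ny Nc : ℝ} (hR0 : 0 ≤ R)
    (hy : Ny ^ 2 = Xy ^ 2 + Yy ^ 2) (hc : Nc ^ 2 = Xc ^ 2 + Yc ^ 2)
    (hNc0 : 0 ≤ Nc) (h1 : R + 9 / 100 ≤ Ny) (h3 : Nc ≤ R)
    (hX : 0 < Xy) (hY : |Yy - Yc| ≤ 74 / 10000) : 5 / 100 ≤ Xy - Xc := by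
  have a2 : |Yc| ≤ R := by
    rw [← abs_of_nonneg hR0]
    apply sq_le_sq.1
    nlinarith [sq_nonneg Xc]
  have a4 : |Xc| ≤ R := by
    rw [← abs_of_nonneg hR0]
    apply sq_le_sq.1
    nlinarith [sq_nonneg Yc]
  have a1 : |Yy + Yc| ≤ 2 * R + 74 / 10000 := by
    have e : Yy + Yc = (Yy - Yc) + 2 * Yc := by ring
    rw [e]
    refine (abs_add_le _ _).trans ?_
    rw [abs_mul, abs_of_pos (by norm_num : (0 : ℝ) < 2)]
    linarith
  have b1 : |(Yy - Yc) * (Yy + Yc)| ≤ 74 / 10000 * (2 * R + 74 / 10000) := by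
    rw [abs_mul]
    exact mul_le_mul hY a1 (abs_nonneg _) (by norm_num)
  have b2 : 81 / 10000 + 18 / 100 * R ≤ Ny ^ 2 - Nc ^ 2 := by nlinarith
  have b3 : Ny ^ 2 - Nc ^ 2 = (Xy - Xc) * (Xy + Xc) + (Yy - Yc) * (Yy + Yc) := by
    rw [hy, hc]; ring
  have b4 := (abs_le.1 b1).2
  have b5 : 80 / 10000 + 16 / 100 * R ≤ (Xy - Xc) * (Xy + Xc) := by linarith
  obtain ⟨a5, a6⟩ := abs_le.1 a4
  by_contra hcon
  push Not at hcon
  rcases le_total (Xy - Xc) 0 with h | h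
  · have h6 : 0 < Xy + Xc := by linarith
    have := mul_nonneg (by linarith : 0 ≤ -(Xy - Xc)) h6.le
    nlinarith
  · have h5 : (Xy - Xc) * (Xy + Xc) ≤ 5 / 100 * (2 * R + 5 / 100) := by
      rcases le_total (Xy + Xc) 0 with h7 | h7
      · have := mul_nonneg h (by linarith : 0 ≤ -(Xy + Xc))
        nlinarith
      · exact mul_le_mul hcon.le (by linarith) h7 (by norm_num)
    nlinarith

theorem near_ω {x y : ℝ} (h : x ^ 2 + y ^ 2 = 1) (hy : 0 < y) (hx : |x - 1 / 3| ≤ 596 / 100000) :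
    (x - 1 / 3) ^ 2 + (y - 2 * Real.sqrt 2 / 3) ^ 2 ≤ (64 / 10000) ^ 2 := by
  have hs : Real.sqrt 2 ^ 2 = 2 := Real.sq_sqrt (by norm_num)
  have hs0 : 0 ≤ Real.sqrt 2 := Real.sqrt_nonneg 2
  have hs1 : 141 / 100 ≤ Real.sqrt 2 := by
    rw [show (141 / 100 : ℝ) = Real.sqrt ((141 / 100) ^ 2) from
      (Real.sqrt_sq (by norm_num)).symm]
    exact Real.sqrt_le_sqrt (by norm_num)
  obtain ⟨h1, h2⟩ := abs_le.1 hx
  have hy1 : 94 / 100 ≤ y := by
    by_contra hc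
    push Not at hc
    nlinarith
  have hprod : (y - 2 * Real.sqrt 2 / 3) * (y + 2 * Real.sqrt 2 / 3) =
      -(x - 1 / 3) * (x + 1 / 3) := by nlinarith
  have hsum : 188 / 100 ≤ y + 2 * Real.sqrt 2 / 3 := by linarith
  have h3 : |y - 2 * Real.sqrt 2 / 3| * (188 / 100) ≤ 596 / 100000 * (673 / 1000) := by
    have e1 : |(y - 2 * Real.sqrt 2 / 3) * (y + 2 * Real.sqrt 2 / 3)| =
        |x - 1 / 3| * |x + 1 / 3| := by
      rw [hprod, neg_mul, abs_neg, abs_mul]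
    rw [abs_mul, abs_of_pos (by linarith : 0 < y + 2 * Real.sqrt 2 / 3)] at e1
    have e2 : |x + 1 / 3| ≤ 673 / 1000 := by rw [abs_le]; constructor <;> linarith
    have e3 : |x - 1 / 3| * |x + 1 / 3| ≤ 596 / 100000 * (673 / 1000) :=
      mul_le_mul hx e2 (abs_nonneg _) (by norm_num)
    have e4 := abs_nonneg (y - 2 * Real.sqrt 2 / 3)
    nlinarith
  have h4 : |y - 2 * Real.sqrt 2 / 3| ≤ 214 / 100000 := by linarith
  have h5 : (y - 2 * Real.sqrt 2 / 3) ^ 2 ≤ (214 / 100000) ^ 2 := by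
    rw [← sq_abs]; exact pow_le_pow_left₀ (abs_nonneg _) h4 2
  have h6 : (x - 1 / 3) ^ 2 ≤ (596 / 100000) ^ 2 := by
    rw [← sq_abs]; exact pow_le_pow_left₀ (abs_nonneg _) hx 2
  nlinarith

theorem PD.norm_sq_of_beta6 (P : PD ι) {j : ι} {k : Fin 4} (hk : k ∈ P.C j)
    (h : -6 ≤ P.β j k) : 224 / 225 ≤ ‖P.n j k‖ ^ 2 := by
  have h1 := P.n2 j k hk
  have h2 := P.βhi j k hk
  have h4 : ((7 - P.β j k) / 195) ^ 2 ≤ (1 / 15) ^ 2 :=
    pow_le_pow_left₀ (by linarith) (by linarith) 2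
  linarith

theorem eps6 {x y : ℝ} (hx : -6 ≤ x) (hy : -6 ≤ y) (hx2 : x ≤ 7) (hy2 : y ≤ 7) :
    ((7 - x) / 195) * ((7 - y) / 195) ≤ 1 / 225 := by
  have h1 : (7 - x) / 195 ≤ 1 / 15 := by linarith
  have h2 : (7 - y) / 195 ≤ 1 / 15 := by linarith
  have h3 : 0 ≤ (7 - x) / 195 := by linarith
  have h4 : 0 ≤ (7 - y) / 195 := by linarith
  nlinarith

theorem ni_lo {b N : ℝ} (hN0 : 0 < N) (hN1 : N ≤ 1) (hb : 1 / 3 - 1 / 225 ≤ b) :
    1 / 3 - 596 / 100000 ≤ b / N := by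
  rw [le_div_iff₀ hN0]
  nlinarith

theorem ni_b {b ν : ℝ} (hν : 224 / 225 ≤ ν ^ 2) (hν0 : 0 < ν) (h : ν * b ≤ 1 / 3 + 1 / 225) :
    b ≤ 338535 / 1000000 := by
  have h1 : 99777 / 100000 ≤ ν := by
    by_contra hc
    push Not at hc
    nlinarith
  by_contra hc
  push Not at hc
  nlinarith

theorem ni_hi {b N : ℝ} (hN : 224 / 225 ≤ N ^ 2) (hN0 : 0 < N) (hb : b ≤ 338535 / 1000000) :
    b / N ≤ 1 / 3 + 596 / 100000 := by
  have h1 : 99777 / 100000 ≤ N := by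
    by_contra hc
    push Not at hc
    nlinarith
  rw [div_le_iff₀ hN0]
  nlinarith

theorem next_inner (P : PD ι) {R : ℝ} (hR0 : 0 ≤ R) (hR6 : R ≤ 6) {j j' : ι} {k k' : Fin 4}
    {d d' y0 : ℂ} {b ν' : ℝ} (H : FlushTo P R j k d b j' k' d' ν' y0) (hin : Inner P R j') :
    ∃ d'', Exit P j' d'' ∧ ‖d'' - ω * d'‖ ≤ 64 / 10000 := by
  obtain ⟨hcard, c, hc, hF⟩ := hin
  obtain ⟨κ, hκ, hne, hall⟩ := P.two hcard H.mem
  have hdn := H.dn
  have hνlo := H.νlo
  have hνhi := H.νhi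
  have hν0 : 0 < ν' := by linarith
  have hβκ : -6 ≤ P.β j' κ := by
    have := P.beta_ge hκ hc (δ := 0) (by rw [hF κ hκ]; norm_num)
    linarith
  have hβk : -6 ≤ P.β j' k' := by
    have := P.beta_ge H.mem hc (δ := 0) (by rw [hF k' H.mem]; norm_num)
    linarith
  have hνκ := P.norm_sq_of_beta6 hκ hβκ
  have hνk := P.norm_sq_of_beta6 H.mem hβk
  have hνκ1 := P.n1 j' κ hκ
  have hνn : ‖P.n j' k'‖ = ν' := by
    rw [H.hn, norm_neg, norm_mul, norm_real, norm_mul, norm_I, hdn, Real.norm_eq_abs,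
      abs_of_pos hν0]; ring
  rw [hνn] at hνk
  have hL : -ν' * ip (y0 - c) (I * d') = P.F j' k' y0 := by
    have h1 := hF k' H.mem
    unfold PD.F at h1 ⊢
    rw [H.hn, ip_neg_left, ip_smul_left] at h1 ⊢
    rw [ip_sub_left, ip_comm y0, ip_comm c]
    linarith
  have hL2 : |ip (y0 - c) (I * d')| ≤ 74 / 10000 := by
    have h1 : |-ν' * ip (y0 - c) (I * d')| ≤ 73 / 10000 := by
      rw [hL, abs_le]
      exact ⟨H.F0, by linarith [H.cov k' H.mem]⟩
    rw [abs_mul, abs_neg, abs_of_pos hν0] at h1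
    have := abs_nonneg (ip (y0 - c) (I * d'))
    nlinarith
  have hα := inner_side (Xy := ip y0 d') (Yy := ip y0 (I * d')) (Xc := ip c d')
    (Yc := ip c (I * d')) hR0 (norm_sq_expand y0 d' hdn) (norm_sq_expand c d' hdn)
    (norm_nonneg _) H.ylo hc H.yd (by rw [← ip_sub_left]; exact hL2)
  rw [← ip_sub_left] at hα
  set n := P.n j' κ with hn
  set N := ‖n‖ with hN
  have hN0 : 0 < N := by
    by_contra hcon
    push Not at hcon
    have : N = 0 := le_antisymm hcon (norm_nonneg _)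
    rw [this] at hνκ
    norm_num at hνκ
  set a := ip n d' with ha
  set b' := ip n (I * d') with hb'
  have hab : N ^ 2 = a ^ 2 + b' ^ 2 := norm_sq_expand n d' hdn
  have hbval : -(ν' * b') = ip (P.n j' k') n := by
    rw [H.hn, ip_neg_left, ip_smul_left, ip_comm (I * d')]
  have hnn := P.nn j' k' H.mem κ hκ (fun e => hne e.symm)
  have hεε := eps6 hβk hβκ (P.βhi j' k' H.mem) (P.βhi j' κ hκ)
  have hnn2 := abs_le.1 (hnn.trans hεε)
  rw [← hn, ← hbval] at hnn2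
  obtain ⟨hnn3, hnn4⟩ := hnn2
  have hblo : 1 / 3 - 1 / 225 ≤ b' := by
    by_contra hcon
    push Not at hcon
    nlinarith
  have hbhi : b' ≤ 338535 / 1000000 := ni_b hνk hν0 (by linarith)
  have hbabs : |b'| ≤ 34 / 100 := by
    rw [abs_le]; constructor <;> linarith
  have hNlo : 9974 / 10000 ≤ N := by
    by_contra hcon
    push Not at hcon
    nlinarith
  have hacomp := li_a hab hNlo hbabs
  have hval : P.F j' κ y0 = a * ip (y0 - c) d' + b' * ip (y0 - c) (I * d') := by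
    rw [ha, hb', ← ip_expand n (y0 - c) d' hdn]
    have h1 := hF κ hκ
    unfold PD.F at h1 ⊢
    rw [ip_sub_right]
    linarith
  have haneg : a < 0 := by
    by_contra hcon
    push Not at hcon
    rw [abs_of_nonneg hcon] at hacomp
    have h1 := H.cov κ hκ
    rw [hval] at h1
    have e1 : 937 / 1000 * (5 / 100) ≤ a * ip (y0 - c) d' :=
      mul_le_mul hacomp hα (by norm_num) hcon
    have e2 : |b' * ip (y0 - c) (I * d')| ≤ 34 / 100 * (74 / 10000) := by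
      rw [abs_mul]
      exact mul_le_mul hbabs hL2 (abs_nonneg _) (by norm_num)
    have e3 := (abs_le.1 e2).1
    linarith
  have hNc : (N : ℂ) ≠ 0 := by exact_mod_cast hN0.ne'
  set d'' : ℂ := ((N⁻¹ : ℝ) : ℂ) * (-(I * n)) with hd''
  have hd''n : ‖d''‖ = 1 := by
    rw [hd'', norm_mul, norm_real, norm_neg, norm_mul, norm_I, norm_inv, Real.norm_eq_abs,
      abs_of_pos hN0, one_mul, ← hN, inv_mul_cancel₀ hN0.ne']
  have hnd'' : n = (N : ℂ) * (I * d'') := by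
    rw [hd'']
    push_cast
    have hI : I * (((N : ℂ))⁻¹ * (-(I * n))) = ((N : ℂ)⁻¹ * n) := by
      linear_combination (-((N : ℂ)⁻¹ * n)) * Complex.I_mul_I
    rw [hI]
    field_simp
  have c1 : ip d'' d' = b' / N := by
    rw [hd'', ip_smul_left, ip_neg_left, ip_I_left, hb']
    field_simp
  have c2 : ip d'' (I * d') = -a / N := by
    rw [hd'', ip_smul_left, ip_neg_left, ip_I_I, ha]
    field_simp
  refine ⟨d'', ⟨hd''n, κ, hκ, hnd'', ?_⟩, ?_⟩
  · intro l hl hlk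
    rcases hall l hl with h | h
    · rw [h, H.hn, ip_neg_left, ip_smul_left]
      have e : ip (I * d') d'' = -a / N := by rw [ip_comm]; exact c2
      rw [e]
      have : 0 < -a / N := div_pos (by linarith) hN0
      nlinarith
    · exact absurd h hlk
  · have hcs : (b' / N) ^ 2 + (-a / N) ^ 2 = 1 := by
      rw [div_pow, div_pow, ← add_div, div_eq_one_iff_eq (by positivity)]
      linarith
    have hx : |b' / N - 1 / 3| ≤ 596 / 100000 := by
      rw [abs_le]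
      have := ni_lo hN0 hνκ1 hblo
      have := ni_hi hνκ hN0 hbhi
      constructor <;> linarith
    have h3 := near_ω hcs (div_pos (by linarith) hN0) hx
    have h4 : ‖d'' - ω * d'‖ ^ 2 =
        (b' / N - 1 / 3) ^ 2 + (-a / N - 2 * Real.sqrt 2 / 3) ^ 2 := by
      rw [norm_sq_expand (d'' - ω * d') d' hdn, ip_sub_left, ip_sub_left, c1, c2,
        ip_ω_self d' hdn, ip_ω_I d' hdn]
    rw [← h4] at h3
    exact (pow_le_pow_iff_left₀ (norm_nonneg _) (by norm_num) two_ne_zero).1 h3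

/-- the boundary line of an outer member -/
structure OuterLine (P : PD ι) (R : ℝ) (j : ι) (k : Fin 4) (e : ℂ) (ν b : ℝ) : Prop where
  inJ : P.InJ j
  ni : ¬ Inner P R j
  mem : k ∈ P.C j
  en : ‖e‖ = 1
  νlo : 9974 / 10000 ≤ ν
  νhi : ν ≤ 1
  hn : P.n j k = (ν : ℂ) * (I * e)
  hβ : |P.β j k| ≤ b * ν
  clear : ∀ κ ∈ P.C j, κ ≠ k → ∀ y, ‖y‖ ≤ R + 1 → P.F j k y = 0 → P.F j κ y < 0

/-- the outer case of the flush step -/
theorem next_outer (P : PD ι) {R : ℝ} (hgap : Gap P R)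
    {j j' : ι} {k k' : Fin 4} {d d' y0 : ℂ} {b ν' : ℝ}
    (H : FlushTo P R j k d b j' k' d' ν' y0) (hni : ¬ Inner P R j') :
    OuterLine P R j' k' (-d') ν' (b + 3 / 40) := by
  refine ⟨H.inJ, hni, H.mem, by rw [norm_neg]; exact H.dn, H.νlo, H.νhi, ?_, H.off, ?_⟩
  · rw [H.hn]; ring
  · intro κ hκ hne y hy1 hy2
    obtain ⟨y1, h1, h2, h3⟩ := H.clr
    by_contra hc
    push Not at hc
    obtain ⟨θ, hθ0, hθ1, hθ⟩ := P.zero_between j' κ (h3 κ hκ hne).le hc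
    set z : ℂ := y1 + (θ : ℂ) * (y - y1) with hz
    have hz0 : P.F j' k' z = 0 := by
      rw [hz, P.F_comb, h2, hy2]; ring
    have hzn : ‖z‖ ≤ R + 1 := by
      have e1 : z = ((1 - θ : ℝ) : ℂ) * y1 + (θ : ℂ) * y := by rw [hz]; push_cast; ring
      rw [e1]
      refine (norm_add_le _ _).trans ?_
      rw [norm_mul, norm_mul, norm_real, norm_real, Real.norm_eq_abs, Real.norm_eq_abs,
        abs_of_nonneg hθ0, abs_of_nonneg (by linarith : 0 ≤ 1 - θ)]
      have a1 := mul_le_mul_of_nonneg_left h1 (by linarith : 0 ≤ 1 - θ)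
      have a2 := mul_le_mul_of_nonneg_left hy1 hθ0
      linarith
    have hall := P.all_of_two H.mem hκ hne (p := fun l => P.F j' l z = 0) hz0 hθ
    have hcard := P.card_two H.mem hκ hne
    rcases le_or_gt ‖z‖ R with h | h
    · exact hni ⟨hcard, z, h, hall⟩
    · exact hgap j' H.inJ hcard z hall ⟨h, hzn⟩

end Pool.Agent.H771.B
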