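import Pool.Agent.H771.B.Line

/-!
# The segment of a boundary line in an annulus and the member on its other side
-/

namespace Pool.Agent.H771.B

open Complex

variable {ι : Type*}

/-- the point with coordinates `σ` along the line and `t` above it -/
noncomputable def pt (d : ℂ) (h σ t : ℝ) : ℂ := (σ : ℂ) * d + ((h + t : ℝ) : ℂ) * (I * d)

theorem ip_pt (n d : ℂ) (h σ t : ℝ) :
    ip n (pt d h σ t) = σ * ip n d + (h + t) * ip n (I * d) := by
  unfold pt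
  rw [ip_add_right, ip_smul_right, ip_smul_right]

theorem norm_sq_pt {d : ℂ} (hd : ‖d‖ = 1) (h σ t : ℝ) :
    ‖pt d h σ t‖ ^ 2 = σ ^ 2 + (h + t) ^ 2 := by
  rw [norm_sq_expand _ d hd, ip_comm _ d, ip_comm _ (I * d), ip_pt, ip_pt, ip_self_unit d hd,
    ip_Id_Id d hd, ip_I_self, ip_comm (I * d) d, ip_I_self]
  ring

theorem norm_pt_sub {d : ℂ} (hd : ‖d‖ = 1) (h σ t t' : ℝ) :
    ‖pt d h σ t - pt d h σ t'‖ = |t - t'| := by
  have e : pt d h σ t - pt d h σ t' = ((t - t' : ℝ) : ℂ) * (I * d) := by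
    unfold pt
    push_cast
    ring
  rw [e, norm_mul, norm_mul, norm_I, hd, norm_real, Real.norm_eq_abs]
  ring

theorem pt_comb (d : ℂ) (h σ t σ' t' θ : ℝ) :
    pt d h σ t + (θ : ℂ) * (pt d h σ' t' - pt d h σ t) =
      pt d h (σ + θ * (σ' - σ)) (t + θ * (t' - t)) := by
  unfold pt
  push_cast
  ring

/-- data on the segment of a boundary line inside an annulus -/
structure Seg (P : PD ι) (R : ℝ) (j : ι) (k : Fin 4) (d : ℂ) (ν h s0 : ℝ) : Prop where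
  R0 : 0 ≤ R
  R6 : R ≤ 6
  inJ : P.InJ j
  mem : k ∈ P.C j
  dn : ‖d‖ = 1
  νlo : 9974 / 10000 ≤ ν
  νhi : ν ≤ 1
  hn : P.n j k = (ν : ℂ) * (I * d)
  hF : ∀ σ t, P.F j k (pt d h σ t) = ν * t
  s0pos : 0 < s0
  nrm : ∀ σ, s0 ≤ σ → σ ≤ s0 + 43 / 50 → R + 1 / 10 ≤ ‖pt d h σ 0‖ ∧ ‖pt d h σ 0‖ ≤ R + 24 / 25
  clr : ∀ σ, s0 ≤ σ → σ ≤ s0 + 43 / 50 → ∀ κ ∈ P.C j, κ ≠ k → P.F j κ (pt d h σ 0) < 0

theorem Seg.nrm' {P : PD ι} {R : ℝ} {j : ι} {k : Fin 4} {d : ℂ} {ν h s0 : ℝ}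
    (S : Seg P R j k d ν h s0) {σ t : ℝ} (h1 : s0 ≤ σ) (h2 : σ ≤ s0 + 43 / 50) (ht : 0 ≤ t) :
    R + 1 / 10 - t ≤ ‖pt d h σ t‖ ∧ ‖pt d h σ t‖ ≤ R + 24 / 25 + t := by
  obtain ⟨h3, h4⟩ := S.nrm σ h1 h2
  have h5 := norm_pt_sub S.dn h σ t 0
  rw [sub_zero, abs_of_nonneg ht] at h5
  have h6 := norm_sub_norm_le (pt d h σ 0) (pt d h σ t)
  have h7 := norm_sub_norm_le (pt d h σ t) (pt d h σ 0)
  rw [norm_sub_rev, h5] at h6
  rw [h5] at h7
  constructor <;> linarith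

theorem seg_len {R s0 h : ℝ} (hR0 : 0 ≤ R) (hs : s0 ^ 2 = (R + 1 / 10) ^ 2 - h ^ 2)
    (hs0 : 0 < s0) {σ N : ℝ} (h1 : s0 ≤ σ) (h2 : σ ≤ s0 + 43 / 50) (hN0 : 0 ≤ N)
    (hN : N ^ 2 = σ ^ 2 + h ^ 2) : R + 1 / 10 ≤ N ∧ N ≤ R + 24 / 25 := by
  have h3 : s0 ≤ R + 1 / 10 := by nlinarith [sq_nonneg h]
  constructor
  · by_contra hc
    push Not at hc
    nlinarith
  · by_contra hc
    push Not at hc
    have h4 : σ ^ 2 ≤ (s0 + 43 / 50) ^ 2 := pow_le_pow_left₀ (by linarith) h2 2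
    nlinarith

theorem mk_seg {P : PD ι} {R : ℝ} (hR0 : 0 ≤ R) (hR6 : R ≤ 6) {j : ι} {k : Fin 4} {d : ℂ}
    {ν b : ℝ} (L : LineSt P R j k d ν b) (hb : b ≤ R + 2 / 25) :
    ∃ h s0, Seg P R j k d ν h s0 ∧ |h| ≤ b ∧ s0 ^ 2 = (R + 1 / 10) ^ 2 - h ^ 2 := by
  have hνlo := L.νlo
  have hν0 : 0 < ν := by linarith
  set h : ℝ := -(P.β j k) / ν with hh
  have hνh : ν * h = -(P.β j k) := by rw [hh]; field_simp
  have hhb : |h| ≤ b := by
    have h1 : ν * |h| ≤ b * ν := by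
      rw [← abs_of_pos hν0, ← abs_mul, hνh, abs_neg, abs_of_pos hν0]
      exact L.hβ
    by_contra hc
    push Not at hc
    nlinarith
  have hh2 : h ^ 2 ≤ (R + 2 / 25) ^ 2 := by
    rw [← sq_abs h]
    exact pow_le_pow_left₀ (abs_nonneg h) (hhb.trans hb) 2
  have hq : 0 < (R + 1 / 10) ^ 2 - h ^ 2 := by nlinarith
  set s0 : ℝ := Real.sqrt ((R + 1 / 10) ^ 2 - h ^ 2) with hs0
  have hs : s0 ^ 2 = (R + 1 / 10) ^ 2 - h ^ 2 := Real.sq_sqrt hq.le
  have hs00 : 0 < s0 := Real.sqrt_pos.2 hq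
  have hdd := ip_self_unit d L.dn
  have hII := ip_Id_Id d L.dn
  have hdI := ip_I_self d
  have hId : ip (I * d) d = 0 := by rw [ip_comm]; exact hdI
  have hF : ∀ σ t, P.F j k (pt d h σ t) = ν * t := by
    intro σ t
    unfold PD.F
    rw [ip_pt, L.hn, ip_smul_left, ip_smul_left, hId, hII]
    linarith
  have hnrm : ∀ σ, s0 ≤ σ → σ ≤ s0 + 43 / 50 →
      R + 1 / 10 ≤ ‖pt d h σ 0‖ ∧ ‖pt d h σ 0‖ ≤ R + 24 / 25 := by
    intro σ h1 h2
    refine seg_len hR0 hs hs00 h1 h2 (norm_nonneg _) ?_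
    rw [norm_sq_pt L.dn, add_zero]
  refine ⟨h, s0, ⟨hR0, hR6, L.inJ, L.mem, L.dn, L.νlo, L.νhi, L.hn, hF, hs00, hnrm, ?_⟩, hhb, hs⟩
  intro σ h1 h2 κ hκ hne
  obtain ⟨h3, h4⟩ := hnrm σ h1 h2
  refine L.clr _ ?_ ?_ (by linarith) (by linarith) κ hκ hne
  · rw [hF]; ring
  · rw [ip_comm, ip_pt, hdd, hdI]
    linarith

/-- data on the member on the other side of the line -/
structure Sec2 (P : PD ι) (d : ℂ) (h s0 : ℝ) (j : ι) (j' : ι) (k' : Fin 4) (σy t0 : ℝ) :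
    Prop where
  inJ : P.InJ j'
  ne : j ≠ j'
  mem : k' ∈ P.C j'
  σlo : s0 + 21 / 100 < σy
  σhi : σy < s0 + 65 / 100
  t0pos : 0 < t0
  t0hi : t0 < 73 / 10000
  cov : ∀ κ ∈ P.C j', P.F j' κ (pt d h σy t0) ≤ 0
  g0 : 0 ≤ P.F j' k' (pt d h σy 0)

section

variable {P : PD ι} {R : ℝ} {j : ι} {k : Fin 4} {d : ℂ} {ν h s0 : ℝ} {j' : ι} {k' : Fin 4}
  {σy t0 : ℝ}

theorem Sec2.low (S : Seg P R j k d ν h s0) (T : Sec2 P d h s0 j j' k' σy t0) :
    -(73 / 10000) ≤ P.F j' k' (pt d h σy t0) := by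
  have h1 := P.F_lip j' k' T.mem (pt d h σy t0) (pt d h σy 0)
  rw [norm_pt_sub S.dn, zero_sub, abs_neg, abs_of_pos T.t0pos] at h1
  have h2 := T.g0
  have h3 := T.t0hi
  linarith

/-- an apex of the second member near the segment contradicts the gap -/
theorem Sec2.no_apex (S : Seg P R j k d ν h s0) (hgap : Gap P R)
    (T : Sec2 P d h s0 j j' k' σy t0) {κ : Fin 4} (hκ : κ ∈ P.C j') (hne : κ ≠ k')
    {σ t : ℝ} (h1 : s0 ≤ σ) (h2 : σ ≤ s0 + 43 / 50) (ht0 : 0 ≤ t) (ht1 : t ≤ 73 / 10000)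
    (hz : P.F j' κ (pt d h σ t) = 0) (hk : |P.F j' k' (pt d h σ t)| ≤ 73 / 10000) : False := by
  obtain ⟨h3, h4⟩ := S.nrm' h1 h2 ht0
  have hR0 := S.R0
  have hR6 := S.R6
  have hβk : -7 ≤ P.β j' k' := by
    have := P.beta_ge T.mem (z := pt d h σ t) h4 (abs_le.1 hk).1
    linarith
  have hβκ : -7 ≤ P.β j' κ := by
    have := P.beta_ge hκ (z := pt d h σ t) (δ := 0) h4 (by rw [hz]; norm_num)
    linarith
  obtain ⟨c, hc, hall⟩ := P.apex_near T.mem hκ hne hβk hβκ hz hk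
  refine hgap j' T.inJ (P.card_two T.mem hκ hne) c hall ⟨?_, ?_⟩
  · have h5 := norm_sub_norm_le (pt d h σ t) c
    rw [norm_sub_rev] at h5
    linarith
  · have h5 := norm_sub_norm_le c (pt d h σ t)
    linarith

/-- the second line does not cross the first one in the annulus -/
theorem Sec2.no_cross (S : Seg P R j k d ν h s0) (hgap : Gap P R)
    (T : Sec2 P d h s0 j j' k' σy t0) {σ : ℝ} (h1 : s0 ≤ σ) (h2 : σ ≤ s0 + 43 / 50) :
    0 ≤ P.F j' k' (pt d h σ 0) := by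
  by_contra hcon
  push Not at hcon
  have hR6 := S.R6
  have hσlo := T.σlo
  have hσhi := T.σhi
  have hg0 := T.g0
  -- a point with a small negative value
  obtain ⟨σ', h1', h2', hlo', hhi'⟩ : ∃ σ', s0 ≤ σ' ∧ σ' ≤ s0 + 43 / 50 ∧
      -(73 / 10000) ≤ P.F j' k' (pt d h σ' 0) ∧ P.F j' k' (pt d h σ' 0) < 0 := by
    by_cases hc : -(73 / 10000) ≤ P.F j' k' (pt d h σ 0)
    · exact ⟨σ, h1, h2, hc, hcon⟩
    · push Not at hc
      set g1 := P.F j' k' (pt d h σy 0) with hg1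
      set g2 := P.F j' k' (pt d h σ 0) with hg2
      have hd : 0 < g1 - g2 := by linarith
      set θ : ℝ := (g1 + 73 / 10000) / (g1 - g2) with hθ
      have hθ0 : 0 ≤ θ := div_nonneg (by linarith) hd.le
      have hθ1 : θ ≤ 1 := by rw [hθ, div_le_one hd]; linarith
      have hval : P.F j' k' (pt d h (σy + θ * (σ - σy)) 0) = -(73 / 10000) := by
        have h3 := P.F_comb j' k' (pt d h σy 0) (pt d h σ 0) θ
        rw [pt_comb, ← hg1, ← hg2] at h3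
        have e0 : (0 : ℝ) + θ * (0 - 0) = 0 := by ring
        rw [e0] at h3
        rw [h3]
        have h4 : θ * (g1 - g2) = g1 + 73 / 10000 := by rw [hθ]; field_simp
        linarith
      refine ⟨σy + θ * (σ - σy), ?_, ?_, hval.ge, by rw [hval]; norm_num⟩
      · nlinarith
      · nlinarith
  -- the other constraint is nonnegative there
  obtain ⟨h3, h4⟩ := S.nrm σ' h1' h2'
  obtain ⟨κ, hκ, hκ2⟩ := P.bdry T.ne S.mem (z := pt d h σ' 0) (by linarith)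
    (by rw [S.hF]; ring) (S.clr σ' h1' h2')
  have hne : κ ≠ k' := by
    intro e
    rw [e] at hκ2
    linarith
  obtain ⟨θ, hθ0, hθ1, hθ⟩ := P.zero_between j' κ (T.cov κ hκ) hκ2
  rw [pt_comb] at hθ
  have ht0 := T.t0pos
  have ht1 := T.t0hi
  refine T.no_apex S hgap hκ hne ?_ ?_ ?_ ?_ hθ ?_
  · nlinarith
  · nlinarith
  · nlinarith
  · nlinarith
  · rw [← pt_comb, P.F_comb, abs_le]
    have g1 := T.low S
    have g2 := T.cov k' T.mem
    constructor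
    · nlinarith
    · nlinarith

theorem Sec2.aff (_ : Sec2 P d h s0 j j' k' σy t0) (σ t σ' t' : ℝ) :
    P.F j' k' (pt d h σ t) = P.F j' k' (pt d h σ' t') + (σ - σ') * ip (P.n j' k') d +
      (t - t') * ip (P.n j' k') (I * d) := by
  unfold PD.F
  rw [ip_pt, ip_pt]
  ring

theorem Sec2.g_le (S : Seg P R j k d ν h s0) (T : Sec2 P d h s0 j j' k' σy t0) :
    P.F j' k' (pt d h σy 0) ≤ 73 / 10000 := by
  have h1 := P.F_lip j' k' T.mem (pt d h σy t0) (pt d h σy 0)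
  rw [norm_pt_sub S.dn, zero_sub, abs_neg, abs_of_pos T.t0pos] at h1
  have h2 := T.cov k' T.mem
  have h3 := T.t0hi
  linarith

/-- the crude bound for the slope -/
theorem Sec2.slope (S : Seg P R j k d ν h s0) (hgap : Gap P R)
    (T : Sec2 P d h s0 j j' k' σy t0) : |ip (P.n j' k') d| ≤ 348 / 10000 := by
  have hσlo := T.σlo
  have hσhi := T.σhi
  have h1 := T.no_cross S hgap (σ := s0) le_rfl (by linarith)
  have h2 := T.no_cross S hgap (σ := s0 + 43 / 50) (by linarith) le_rfl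
  have h3 := T.g_le S
  rw [T.aff s0 0 σy 0] at h1
  rw [T.aff (s0 + 43 / 50) 0 σy 0] at h2
  rw [abs_le]
  constructor
  · by_contra hc
    push Not at hc
    nlinarith
  · by_contra hc
    push Not at hc
    nlinarith

theorem Sec2.beta (S : Seg P R j k d ν h s0) (T : Sec2 P d h s0 j j' k' σy t0) :
    -7 ≤ P.β j' k' := by
  have hσlo := T.σlo
  have hσhi := T.σhi
  obtain ⟨h3, h4⟩ := S.nrm σy (by linarith) (by linarith)
  have hR6 := S.R6
  have := P.beta_ge T.mem (z := pt d h σy 0) (δ := 0) h4 (by linarith [T.g0])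
  linarith

theorem se_q {N p q : ℝ} (hN : 9974 / 10000 ≤ N) (hN2 : N ^ 2 = p ^ 2 + q ^ 2)
    (hp : |p| ≤ 348 / 10000) (hq : q ≤ 0) : q ≤ -(9967 / 10000) := by
  have h1 : p ^ 2 ≤ (348 / 10000) ^ 2 := by
    rw [← sq_abs p]; exact pow_le_pow_left₀ (abs_nonneg p) hp 2
  by_contra hc
  push Not at hc
  nlinarith

theorem Sec2.q_le (S : Seg P R j k d ν h s0) (hgap : Gap P R)
    (T : Sec2 P d h s0 j j' k' σy t0) : ip (P.n j' k') (I * d) ≤ -(9967 / 10000) := by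
  have h1 := T.cov k' T.mem
  have h2 := T.g0
  have h3 := T.t0pos
  rw [T.aff σy t0 σy 0] at h1
  have hq : ip (P.n j' k') (I * d) ≤ 0 := by
    by_contra hc
    push Not at hc
    nlinarith
  exact se_q (P.norm_of_beta T.mem (T.beta S)) (norm_sq_expand _ d S.dn) (T.slope S hgap) hq

theorem Sec2.q_ge (S : Seg P R j k d ν h s0) (T : Sec2 P d h s0 j j' k' σy t0) :
    -1 ≤ ip (P.n j' k') (I * d) := by
  have h1 := abs_ip_le (P.n j' k') (I * d)
  rw [norm_mul, norm_I, S.dn] at h1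
  have h2 := P.n1 j' k' T.mem
  have := (abs_le.1 h1).1
  linarith

/-- the gap between the two lines -/
theorem Sec2.g_max (S : Seg P R j k d ν h s0) (hgap : Gap P R)
    (T : Sec2 P d h s0 j j' k' σy t0) {σ : ℝ} (h1 : s0 ≤ σ) (h2 : σ ≤ s0 + 43 / 50) :
    P.F j' k' (pt d h σ 0) ≤ 2995 / 100000 := by
  have hσlo := T.σlo
  have hσhi := T.σhi
  have h3 := T.g_le S
  have h4 := T.slope S hgap
  rw [T.aff σ 0 σy 0]
  have h5 : |σ - σy| ≤ 65 / 100 := by rw [abs_le]; constructor <;> linarith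
  have h6 : |(σ - σy) * ip (P.n j' k') d| ≤ 65 / 100 * (348 / 10000) := by
    rw [abs_mul]
    exact mul_le_mul h5 h4 (abs_nonneg _) (by norm_num)
  have h7 := (abs_le.1 h6).2
  linarith

/-- the second line is clear of the other constraint of the second member -/
theorem Sec2.clr (S : Seg P R j k d ν h s0) (hgap : Gap P R)
    (T : Sec2 P d h s0 j j' k' σy t0) {σ t : ℝ} (h1 : s0 ≤ σ) (h2 : σ ≤ s0 + 43 / 50)
    (ht0 : 0 ≤ t) (ht1 : t ≤ 31 / 1000) (hz : P.F j' k' (pt d h σ t) = 0) {κ : Fin 4}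
    (hκ : κ ∈ P.C j') (hne : κ ≠ k') : P.F j' κ (pt d h σ t) < 0 := by
  have hσlo := T.σlo
  have hσhi := T.σhi
  have ht0' := T.t0pos
  have ht1' := T.t0hi
  have hR6 := S.R6
  -- the point of the second line above `σy`
  obtain ⟨θ, hθ0, hθ1, hθ⟩ := P.zero_between j' k' (T.cov k' T.mem) T.g0
  rw [pt_comb] at hθ
  have eσ : σy + θ * (σy - σy) = σy := by ring
  rw [eσ] at hθ
  set t1 : ℝ := t0 + θ * (0 - t0) with ht1def
  have ht10 : 0 ≤ t1 := by rw [ht1def]; nlinarith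
  have ht11 : t1 ≤ t0 := by rw [ht1def]; nlinarith
  have hy1 : P.F j' κ (pt d h σy t1) < 0 := by
    by_contra hc
    push Not at hc
    obtain ⟨φ, hφ0, hφ1, hφ⟩ := P.zero_between j' κ (T.cov κ hκ) hc
    rw [pt_comb, eσ_aux] at hφ
    refine T.no_apex S hgap hκ hne (by linarith) (by linarith) ?_ ?_ hφ ?_
    · nlinarith
    · nlinarith
    · have h3 := P.F_comb j' k' (pt d h σy t0) (pt d h σy t1) φ
      rw [pt_comb, eσ_aux, hθ] at h3
      rw [h3, abs_le]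
      have g1 := T.low S
      have g2 := T.cov k' T.mem
      constructor
      · nlinarith
      · nlinarith
  by_contra hc
  push Not at hc
  obtain ⟨φ, hφ0, hφ1, hφ⟩ := P.zero_between j' κ hy1.le hc
  rw [pt_comb] at hφ
  have h3 := P.F_comb j' k' (pt d h σy t1) (pt d h σ t) φ
  rw [pt_comb, hθ, hz] at h3
  have h4 : P.F j' k' (pt d h (σy + φ * (σ - σy)) (t1 + φ * (t - t1))) = 0 := by
    rw [h3]; ring
  have hall := P.all_of_two T.mem hκ hne (p := fun l =>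
    P.F j' l (pt d h (σy + φ * (σ - σy)) (t1 + φ * (t - t1))) = 0) h4 hφ
  have hσ1 : s0 ≤ σy + φ * (σ - σy) := by nlinarith
  have hσ2 : σy + φ * (σ - σy) ≤ s0 + 43 / 50 := by nlinarith
  have ht2 : 0 ≤ t1 + φ * (t - t1) := by nlinarith
  have ht3 : t1 + φ * (t - t1) ≤ 31 / 1000 := by nlinarith
  obtain ⟨h5, h6⟩ := S.nrm' hσ1 hσ2 ht2
  exact hgap j' T.inJ (P.card_two T.mem hκ hne) _ hall ⟨by linarith, by linarith⟩
where
  eσ_aux {a b : ℝ} : a + b * (a - a) = a := by ring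

end

end Pool.Agent.H771.B
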