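import Pool.Agent.H771.B.Seg

/-!
# The thin region between the two lines is uncovered
-/

namespace Pool.Agent.H771.B

open Complex

variable {ι : Type*}

section

variable {P : PD ι} {R : ℝ} {j : ι} {k : Fin 4} {d : ℂ} {ν h s0 : ℝ} {j' : ι} {k' : Fin 4}
  {σy t0 : ℝ}

/-- a small affine function: either small at the end or zero before -/
theorem small_param {f0 f1 c ρ : ℝ} (hf0 : 0 < f0) (hf1 : f1 < c * ρ) (hc : 0 < c)
    (hρ : 0 < ρ) : ∃ θ : ℝ, 0 < θ ∧ θ ≤ 1 ∧ |(1 - θ) * f0 + θ * f1| < c * (θ * ρ) := by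
  by_cases h : -(c * ρ) < f1
  · refine ⟨1, one_pos, le_rfl, ?_⟩
    rw [abs_lt]
    constructor <;> nlinarith
  · push Not at h
    have hcρ : 0 < c * ρ := by positivity
    have hd : 0 < f0 - f1 := by linarith
    refine ⟨f0 / (f0 - f1), by positivity, by rw [div_le_one hd]; linarith, ?_⟩
    have h1 : (1 - f0 / (f0 - f1)) * f0 + f0 / (f0 - f1) * f1 = 0 := by
      field_simp
      ring
    rw [h1, abs_zero]
    positivity

/-- a third member in the thin region has depth on the side of the first member -/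
theorem third_A (S : Seg P R j k d ν h s0) {σ t : ℝ} (h1 : s0 + 63 / 2000 ≤ σ)
    (h2 : σ ≤ s0 + 43 / 50 - 63 / 2000) (ht : 0 < t) {m : ι} (hm : j ≠ m)
    (hcov : ∀ κ ∈ P.C m, P.F m κ (pt d h σ t) ≤ 0) {u : ℂ} (hu : ‖u‖ = 1)
    (hu2 : ∀ κ ∈ P.C m, ip (P.n m κ) u ≤ -(5067 / 10000)) :
    5067 / 10000 * ν * (63 / 2000) ≤ P.F j k (pt d h σ t + ((63 / 2000 : ℝ) : ℂ) * u) := by
  by_contra hcon
  push Not at hcon
  have hνlo := S.νlo
  have hν0 : 0 < ν := by linarith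
  have hR6 := S.R6
  have hf0 : 0 < P.F j k (pt d h σ t) := by rw [S.hF]; positivity
  obtain ⟨θ, hθ0, hθ1, hθ⟩ := small_param hf0 hcon (by positivity) (by norm_num)
  set x : ℂ := pt d h σ t + ((θ * (63 / 2000) : ℝ) : ℂ) * u with hx
  have hFx : P.F j k x = (1 - θ) * P.F j k (pt d h σ t) +
      θ * P.F j k (pt d h σ t + ((63 / 2000 : ℝ) : ℂ) * u) := by
    rw [hx, P.F_add, P.F_add, ip_smul_right, ip_smul_right]
    ring
  rw [← hFx] at hθ
  -- the foot of `x` on the line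
  have hdd := ip_self_unit d S.dn
  have hII := ip_Id_Id d S.dn
  have hdI := ip_I_self d
  have hId : ip (I * d) d = 0 := by rw [ip_comm]; exact hdI
  set σ1 : ℝ := ip x d with hσ1
  have hxpt : x = pt d h σ1 (ip x (I * d) - h) := by
    unfold pt
    rw [add_sub_cancel, hσ1]
    exact eq_expand x d S.dn
  have hFx2 : P.F j k x = ν * (ip x (I * d) - h) := by
    nth_rewrite 1 [hxpt]
    rw [S.hF]
  have hσ1' : |σ1 - σ| ≤ 63 / 2000 := by
    have e : σ1 - σ = θ * (63 / 2000) * ip u d := by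
      rw [hσ1, hx, ip_add_left, ip_smul_left, ip_comm (pt d h σ t), ip_pt, hdd, hdI]
      ring
    rw [e, abs_mul, abs_of_pos (by positivity)]
    have h3 := abs_ip_le u d
    rw [hu, S.dn] at h3
    have := abs_nonneg (ip u d)
    nlinarith
  obtain ⟨hs1, hs2⟩ := abs_le.1 hσ1'
  have hz1 : s0 ≤ σ1 := by linarith
  have hz2 : σ1 ≤ s0 + 43 / 50 := by linarith
  obtain ⟨h3, h4⟩ := S.nrm σ1 hz1 hz2
  obtain ⟨κ, hκ, hκ2⟩ := P.bdry hm S.mem (z := pt d h σ1 0) (by linarith)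
    (by rw [S.hF]; ring) (S.clr σ1 hz1 hz2)
  have hdist : ‖pt d h σ1 0 - x‖ < 5067 / 10000 * (θ * (63 / 2000)) := by
    have e1 : ‖pt d h σ1 0 - x‖ = |ip x (I * d) - h| := by
      nth_rewrite 1 [hxpt]
      rw [norm_pt_sub S.dn, zero_sub, abs_neg]
    rw [hFx2, abs_mul, abs_of_pos hν0] at hθ
    rw [e1]
    have e2 : 5067 / 10000 * ν * (θ * (63 / 2000)) =
        ν * (5067 / 10000 * (θ * (63 / 2000))) := by ring
    rw [e2] at hθ
    exact lt_of_mul_lt_mul_left hθ hν0.le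
  have h5 := P.F_lip m κ hκ x (pt d h σ1 0)
  have h6 : P.F m κ x ≤ -(5067 / 10000 * (θ * (63 / 2000))) := by
    rw [hx, P.F_add, ip_smul_right]
    have := hcov κ hκ
    have := mul_le_mul_of_nonneg_left (hu2 κ hκ) (by positivity : 0 ≤ θ * (63 / 2000))
    linarith
  linarith

theorem th_t {g q t : ℝ} (hg0 : 0 ≤ g) (hg : g ≤ 2995 / 100000) (hq : q ≤ -(9967 / 10000))
    (h : g + t * q = 0) : 0 ≤ t ∧ t ≤ 31 / 1000 := by
  constructor
  · by_contra hc
    push Not at hc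
    nlinarith
  · by_contra hc
    push Not at hc
    nlinarith

theorem th_r {r ν' θ : ℝ} (hν : 9974 / 10000 ≤ ν') (hθ : θ ≤ 1) (hr : 0 ≤ r)
    (h : r * ν' < 5067 / 10000 * (θ * (63 / 2000))) : r ≤ 161 / 10000 := by
  by_contra hc
  push Not at hc
  nlinarith

/-- a third member in the thin region has depth on the side of the second member -/
theorem third_B (S : Seg P R j k d ν h s0) (hgap : Gap P R)
    (T : Sec2 P d h s0 j j' k' σy t0) {σ t : ℝ} (h1 : s0 + 65 / 2000 ≤ σ)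
    (h2 : σ ≤ s0 + 43 / 50 - 65 / 2000) (ht : 0 < t) (htg : t < P.F j' k' (pt d h σ 0))
    {m : ι} (hm : j' ≠ m)
    (hcov : ∀ κ ∈ P.C m, P.F m κ (pt d h σ t) ≤ 0) {u : ℂ} (hu : ‖u‖ = 1)
    (hu2 : ∀ κ ∈ P.C m, ip (P.n m κ) u ≤ -(5067 / 10000)) :
    5067 / 10000 * ‖P.n j' k'‖ * (63 / 2000) ≤
      P.F j' k' (pt d h σ t + ((63 / 2000 : ℝ) : ℂ) * u) := by
  by_contra hcon
  push Not at hcon
  have hν'lo := P.norm_of_beta T.mem (T.beta S)
  set n' := P.n j' k' with hn'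
  set ν' := ‖n'‖ with hν'
  have hν'0 : 0 < ν' := by linarith
  have hR6 := S.R6
  have hp := T.slope S hgap
  have hq := T.q_le S hgap
  have hq1 := T.q_ge S
  rw [← hn'] at hp hq hq1
  have hf0 : 0 < P.F j' k' (pt d h σ t) := by
    rw [T.aff σ t σ 0, ← hn']
    nlinarith
  obtain ⟨θ, hθ0, hθ1, hθ⟩ := small_param hf0 hcon (by positivity) (by norm_num)
  set x : ℂ := pt d h σ t + ((θ * (63 / 2000) : ℝ) : ℂ) * u with hx
  have hFx : P.F j' k' x = (1 - θ) * P.F j' k' (pt d h σ t) +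
      θ * P.F j' k' (pt d h σ t + ((63 / 2000 : ℝ) : ℂ) * u) := by
    rw [hx, P.F_add, P.F_add, ip_smul_right, ip_smul_right]
    ring
  rw [← hFx] at hθ
  have hdd := ip_self_unit d S.dn
  have hII := ip_Id_Id d S.dn
  have hdI := ip_I_self d
  -- the foot of `x` on the second line
  set r : ℝ := -(P.F j' k' x) / ν' ^ 2 with hr
  have hrν : r * ν' ^ 2 = -(P.F j' k' x) := by rw [hr]; field_simp
  set z : ℂ := x + (r : ℂ) * n' with hz
  have hFz : P.F j' k' z = 0 := by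
    rw [hz, P.F_add, ip_smul_right, ← hn', ← norm_sq_ip, ← hν']
    linarith
  have hrabs : |r| * ν' < 5067 / 10000 * (θ * (63 / 2000)) := by
    have e1 : |r * ν' ^ 2| = |P.F j' k' x| := by rw [hrν, abs_neg]
    rw [abs_mul, abs_of_pos (by positivity : 0 < ν' ^ 2)] at e1
    rw [← e1] at hθ
    have e2 : |r| * ν' ^ 2 = ν' * (|r| * ν') := by ring
    have e3 : 5067 / 10000 * ν' * (θ * (63 / 2000)) =
        ν' * (5067 / 10000 * (θ * (63 / 2000))) := by ring
    rw [e2, e3] at hθ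
    exact lt_of_mul_lt_mul_left hθ hν'0.le
  have hdist : ‖z - x‖ < 5067 / 10000 * (θ * (63 / 2000)) := by
    rw [hz, add_sub_cancel_left, norm_mul, norm_real, Real.norm_eq_abs, ← hν']
    exact hrabs
  set σ1 : ℝ := ip z d with hσ1
  have hzpt : z = pt d h σ1 (ip z (I * d) - h) := by
    unfold pt
    rw [add_sub_cancel, hσ1]
    exact eq_expand z d S.dn
  have hσ1' : |σ1 - σ| ≤ 65 / 2000 := by
    have e : σ1 - σ = θ * (63 / 2000) * ip u d + r * ip n' d := by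
      rw [hσ1, hz, hx, ip_add_left, ip_add_left, ip_smul_left, ip_smul_left,
        ip_comm (pt d h σ t), ip_pt, hdd, hdI]
      ring
    rw [e]
    refine (abs_add_le _ _).trans ?_
    rw [abs_mul (θ * (63 / 2000)), abs_mul r, abs_of_pos (by positivity : 0 < θ * (63 / 2000))]
    have h3 := abs_ip_le u d
    rw [hu, S.dn] at h3
    have h4 : |r| ≤ 161 / 10000 := th_r hν'lo hθ1 (abs_nonneg r) hrabs
    have h5 : |r| * |ip n' d| ≤ 161 / 10000 * (348 / 10000) :=
      mul_le_mul h4 hp (abs_nonneg _) (by norm_num)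
    have h6 : θ * (63 / 2000) * |ip u d| ≤ 1 * (63 / 2000) * 1 :=
      mul_le_mul (by linarith) (by linarith) (abs_nonneg _) (by norm_num)
    linarith
  obtain ⟨hs1, hs2⟩ := abs_le.1 hσ1'
  have hz1 : s0 ≤ σ1 := by linarith
  have hz2 : σ1 ≤ s0 + 43 / 50 := by linarith
  have hg0 := T.no_cross S hgap hz1 hz2
  have hg1 := T.g_max S hgap hz1 hz2
  have hFz2 : P.F j' k' (pt d h σ1 0) + (ip z (I * d) - h) * ip n' (I * d) = 0 := by
    have h3 := hFz
    rw [hzpt, T.aff σ1 (ip z (I * d) - h) σ1 0, ← hn'] at h3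
    linarith
  obtain ⟨ht1, ht2⟩ := th_t hg0 hg1 hq hFz2
  obtain ⟨h3, h4⟩ := S.nrm' hz1 hz2 ht1
  rw [← hzpt] at h3 h4
  obtain ⟨κ, hκ, hκ2⟩ := P.bdry hm T.mem (z := z) (by linarith) hFz (by
    intro κ hκ hne
    have := T.clr S hgap hz1 hz2 ht1 ht2 (by rw [← hzpt]; exact hFz) hκ hne
    rwa [← hzpt] at this)
  have h5 := P.F_lip m κ hκ x z
  have h6 : P.F m κ x ≤ -(5067 / 10000 * (θ * (63 / 2000))) := by
    rw [hx, P.F_add, ip_smul_right]
    have := hcov κ hκ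
    have := mul_le_mul_of_nonneg_left (hu2 κ hκ) (by positivity : 0 ≤ θ * (63 / 2000))
    linarith
  linarith

theorem th_sum {ν ν' p q g t N : ℝ} (hν : 9974 / 10000 ≤ ν) (hν1 : ν ≤ 1)
    (hν' : 9974 / 10000 ≤ ν') (hp : |p| ≤ 348 / 10000) (hq : q ≤ -(9967 / 10000))
    (hq1 : -1 ≤ q) (hg : g ≤ 2995 / 100000) (ht : 0 < t) (htg : t < g) (hN0 : 0 ≤ N)
    (hN : N ^ 2 = p ^ 2 + (ν + q) ^ 2) :
    ν * t + (g + t * q) + 63 / 2000 * N < 5067 / 10000 * ν * (63 / 2000) +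
      5067 / 10000 * ν' * (63 / 2000) := by
  have h1 : p ^ 2 ≤ (348 / 10000) ^ 2 := by
    rw [← sq_abs p]; exact pow_le_pow_left₀ (abs_nonneg p) hp 2
  have h2 : (ν + q) ^ 2 ≤ (33 / 10000) ^ 2 := by
    apply sq_le_sq'
    · linarith
    · linarith
  have h3 : N ≤ 35 / 1000 := by
    by_contra hc
    push Not at hc
    nlinarith
  have h4 : ν * t + t * q ≤ 33 / 10000 * (2995 / 100000) := by
    have : ν * t + t * q = (ν + q) * t := by ring
    rw [this]
    nlinarith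
  nlinarith

/-- the thin region between the two lines is uncovered -/
theorem third (S : Seg P R j k d ν h s0) (hgap : Gap P R)
    (T : Sec2 P d h s0 j j' k' σy t0) {σ t : ℝ} (h1 : s0 + 65 / 2000 ≤ σ)
    (h2 : σ ≤ s0 + 43 / 50 - 65 / 2000) (ht : 0 < t) (htg : t < P.F j' k' (pt d h σ 0))
    (m : ι) : ∃ κ ∈ P.C m, 0 < P.F m κ (pt d h σ t) := by
  by_contra hcon
  push Not at hcon
  have hνlo := S.νlo
  have hm1 : j ≠ m := by
    intro e
    have := hcon k (e ▸ S.mem)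
    rw [← e, S.hF] at this
    have : 0 < ν * t := mul_pos (by linarith) ht
    linarith
  have hq1 := T.q_ge S
  have hm2 : j' ≠ m := by
    intro e
    have h3 := hcon k' (e ▸ T.mem)
    rw [← e, T.aff σ t σ 0] at h3
    nlinarith
  obtain ⟨u, hu, hu2⟩ := P.exists_dir m
  have hA := third_A S (by linarith) (by linarith) ht hm1 hcon hu hu2
  have hB := third_B S hgap T h1 h2 ht htg hm2 hcon hu hu2
  have hν'lo := P.norm_of_beta T.mem (T.beta S)
  have hp := T.slope S hgap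
  have hq := T.q_le S hgap
  have hg := T.g_max S hgap (σ := σ) (by linarith) (by linarith)
  set n' := P.n j' k' with hn'
  have hN : ‖P.n j k + n'‖ ^ 2 = ip n' d ^ 2 + (ν + ip n' (I * d)) ^ 2 := by
    rw [norm_sq_expand _ d S.dn, ip_add_left, ip_add_left, S.hn, ip_smul_left, ip_smul_left,
      ip_Id_Id d S.dn, ip_comm (I * d) d, ip_I_self]
    ring
  have hlt := th_sum hνlo S.νhi hν'lo hp hq hq1 hg ht htg (norm_nonneg _) hN
  have hle : P.F j k (pt d h σ t + ((63 / 2000 : ℝ) : ℂ) * u) +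
      P.F j' k' (pt d h σ t + ((63 / 2000 : ℝ) : ℂ) * u) ≤
      ν * t + (P.F j' k' (pt d h σ 0) + t * ip n' (I * d)) + 63 / 2000 * ‖P.n j k + n'‖ := by
    rw [P.F_add, P.F_add, ip_smul_right, ip_smul_right, S.hF, T.aff σ t σ 0, ← hn']
    have h3 := ip_le (P.n j k + n') u
    rw [hu, mul_one, ip_add_left] at h3
    linarith
  linarith

end

end Pool.Agent.H771.B
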